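import Mathlib

/-!
Row Bs (MP_9924a2_SW, about 180 lines): an element of a cyclic extension whose norm is not a `p`-th power.

PROOF.  `G = Ω ≃ₐ[k] Ω`, `U = E.fixingSubgroup`, `z = algebraMap k Ω ζ`.  `U` has index `p` in `G` (`IntermediateField.finrank_eq_fixingSubgroup_index`) and is normal (`IntermediateField.fixingSubgroup` of a normal extension: instance), `G ⧸ U` has prime order `p`; `σ ∉ U` (exists since `p ≠ 1`).
(1) There is `α ∈ E`, `α ≠ 0`, `σ α = z * α`: Mathlib's Kummer theory for `E/k` (Galois, cyclic of degree `p`; `ζ ∈ k`): e.g. `exists_root_adjoin_eq_top_of_isCyclic` gives `β ∈ E` with `β ^ p ∈ k`, `k⟮β⟯ = ⊤`; `σ β = z ^ j β` (`IsPrimitiveRoot.eq_pow_of_pow_eq_one`), `σ β ≠ β`, so `p ∤ j`; a power `α = β ^ l` with `j l ≡ 1` mod `p` works (or keep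
 `z' = z ^ j`, also a primitive root in `k`, in place of `z`).
(2) For `x : G ⧸ U` there is `j : ℕ` with `x.out ∈ σ ^ j U` and `x.out α = z ^ j * α`.  The map `x ↦ x.out α / α` is injective (if `g α = h α` with `g = σ ^ i u`, `h = σ ^ j v` then `z ^ i = z ^ j`, `i ≡ j` mod `p`, `σ ^ p ∈ U`) from a set with `p` elements into the `p`-th roots of unity, which has `p` elements: bijective.  So
 `∏ x, x.out α = α ^ p * ∏_{j < p} z ^ j = α ^ p * z ^ (p (p - 1) / 2)` (`Finset.prod_pow_eq_pow_sum`, `Finset.sum_range_id`; reindexing by `Finset.prod_bij` / `Finset.prod_nbij`), `= α ^ p` if `p` is odd (`z ^ p = 1`, `(p - 1) / 2` natural) and `= - α ^ 2` if `p = 2` (`z = -1`).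
(3) Suppose `∏ x, x.out α = algebraMap (w ^ p)` (`w ≠ 0`).  `p` odd: `(α / w) ^ p = 1`, so `α = z ^ j w` for some `j` and `σ α = α`: contradiction (`z ≠ 1`).  `p = 2`: `i ^ 2 = -1`: `α ^ 2 = - w ^ 2 = (i w) ^ 2`, `α = ± i w`, `σ α = α`: contradiction.
-/

set_option autoImplicit false

namespace Pool.Agent.H43.SW

universe u

theorem Bs_norm {k E : Type u} [Field k] [Field E] [Algebra k E] [FiniteDimensional k E] {a : k}
    {α : E} {p : ℕ} (hp : 0 < p) (hE : Module.finrank k E = p) (ha : α ^ p = algebraMap k E a)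
    (hα : IntermediateField.adjoin k {α} = ⊤) : Algebra.norm k α = (-1) ^ p * (-a) := by
  have hint : IsIntegral k α := IsIntegral.of_finite k α
  have hmin : minpoly k α = Polynomial.X ^ p - Polynomial.C a := by
    have h1 := irreducible_X_pow_sub_C_of_root_adjoin_eq_top (K := k) (L := E) (a := a) (α := α)
      (by rw [hE]; exact ha) hα
    rw [hE] at h1
    refine (minpoly.eq_of_irreducible_of_monic h1 ?_ (Polynomial.monic_X_pow_sub_C a hp.ne')).symm
    simp [ha]
  obtain ⟨pb, hpb⟩ : ∃ pb : PowerBasis k E, pb.gen = α := by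
    refine ⟨(IntermediateField.adjoin.powerBasis hint).map
      ((IntermediateField.equivOfEq hα).trans IntermediateField.topEquiv), ?_⟩
    rw [PowerBasis.map_gen, IntermediateField.adjoin.powerBasis_gen]
    rfl
  have h2 := Algebra.PowerBasis.norm_gen_eq_coeff_zero_minpoly pb
  rw [hpb, hmin, ← PowerBasis.finrank, hE] at h2
  rw [h2]
  congr 1
  rw [Polynomial.coeff_sub, Polynomial.coeff_X_pow, Polynomial.coeff_C_zero, if_neg hp.ne, zero_sub]

theorem Bs_prod {k Ω : Type u} [Field k] [Field Ω] [Algebra k Ω] [IsGalois k Ω]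
    (E : IntermediateField k Ω) [FiniteDimensional k E] [Normal k E] [IsGalois k E]
    [Fintype ((Ω ≃ₐ[k] Ω) ⧸ E.fixingSubgroup)] (c : E) :
    ∏ x : (Ω ≃ₐ[k] Ω) ⧸ E.fixingSubgroup, x.out (c : Ω) = algebraMap k Ω (Algebra.norm k c) := by
  classical
  have hb : Function.Bijective (fun x : (Ω ≃ₐ[k] Ω) ⧸ E.fixingSubgroup =>
      (x.out).restrictNormal E) := by
    constructor
    · intro x y hxy
      have h1 : (x.out).restrictNormal E = (y.out).restrictNormal E := hxy
      rw [← QuotientGroup.out_eq' x, ← QuotientGroup.out_eq' y, QuotientGroup.eq]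
      rw [IntermediateField.mem_fixingSubgroup_iff]
      intro z hz
      have h2 : x.out z = y.out z := by
        have h3 := (AlgEquiv.restrictNormal_commutes (x.out) E ⟨z, hz⟩).symm
        have h4 := (AlgEquiv.restrictNormal_commutes (y.out) E ⟨z, hz⟩).symm
        rw [← h1, ← h3] at h4
        exact h4.symm
      change (x.out)⁻¹ (y.out z) = z
      rw [← h2]
      exact (x.out).symm_apply_apply z
    · intro τ
      obtain ⟨g, hg⟩ := AlgEquiv.restrictNormalHom_surjective (F := k) (K₁ := E) Ω τ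
      refine ⟨QuotientGroup.mk g, ?_⟩
      obtain ⟨u, hu⟩ := QuotientGroup.mk_out_eq_mul E.fixingSubgroup g
      apply AlgEquiv.ext
      intro z
      apply Subtype.ext
      have h1 := AlgEquiv.restrictNormal_commutes ((QuotientGroup.mk g :
        (Ω ≃ₐ[k] Ω) ⧸ E.fixingSubgroup).out) E z
      have h2 := AlgEquiv.restrictNormal_commutes g E z
      have h3 : (u : Ω ≃ₐ[k] Ω) (z : Ω) = z :=
        (IntermediateField.mem_fixingSubgroup_iff E _).1 u.2 z z.2
      have h4 : ((QuotientGroup.mk g : (Ω ≃ₐ[k] Ω) ⧸ E.fixingSubgroup).out) (z : Ω) = g z := by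
        rw [hu]
        change g ((u : Ω ≃ₐ[k] Ω) (z : Ω)) = g z
        rw [h3]
      rw [← hg]
      exact h1.trans (h4.trans h2.symm)
  have h1 : ∏ x : (Ω ≃ₐ[k] Ω) ⧸ E.fixingSubgroup, x.out (c : Ω) =
      ∏ τ : E ≃ₐ[k] E, algebraMap E Ω (τ c) := by
    refine Fintype.prod_bijective _ hb _ _ fun x => ?_
    exact (AlgEquiv.restrictNormal_commutes (x.out) E c).symm
  rw [h1, ← map_prod, ← Algebra.norm_eq_prod_automorphisms]
  rfl

theorem bs {k Ω : Type u} [Field k] [Field Ω] [Algebra k Ω] [IsGalois k Ω] {p : ℕ}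
    (hp : p.Prime) (hpk : (p : k) ≠ 0) {ζ : k} (hζ : IsPrimitiveRoot ζ p)
    (hi : p = 2 → ∃ i : k, i ^ 2 = -1) (E : IntermediateField k Ω) [FiniteDimensional k E]
    [Normal k E] (hE : Module.finrank k E = p) [Fintype ((Ω ≃ₐ[k] Ω) ⧸ E.fixingSubgroup)] :
    ∃ c ∈ E, c ≠ 0 ∧
      ∀ w : k, ∏ x : (Ω ≃ₐ[k] Ω) ⧸ E.fixingSubgroup, x.out c ≠ algebraMap k Ω (w ^ p) := by
  classical
  have hsep : Algebra.IsSeparable k E := Algebra.isSeparable_tower_bot_of_isSeparable k E Ω
  have hgal : IsGalois k E := ⟨⟩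
  have hfact : Fact p.Prime := ⟨hp⟩
  have hcyc : IsCyclic (E ≃ₐ[k] E) := isCyclic_of_prime_card (p := p) (by
    rw [IsGalois.card_aut_eq_finrank, hE])
  have hK : (primitiveRoots (Module.finrank k E) k).Nonempty := by
    rw [hE]
    exact ⟨ζ, (mem_primitiveRoots hp.pos).2 hζ⟩
  obtain ⟨α, ⟨a, ha⟩, hα⟩ := exists_root_adjoin_eq_top_of_isCyclic k E hK
  rw [hE] at ha
  have hnorm := Bs_norm hp.pos hE ha.symm hα
  have hαk : ∀ c : k, algebraMap k E c ≠ α := by
    rintro c rfl
    have h1 : IntermediateField.adjoin k {algebraMap k E c} = ⊥ := by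
      rw [IntermediateField.adjoin_simple_eq_bot_iff]
      exact ⟨c, rfl⟩
    rw [h1] at hα
    have h2 : Module.finrank k E = 1 := by
      rw [← IntermediateField.finrank_top (F := k) (E := E)] at *
      rw [← hα]
      simp
    rw [hE] at h2
    exact hp.one_lt.ne' h2
  have hα0 : α ≠ 0 := by
    rintro rfl
    exact hαk 0 (map_zero _)
  have ha0 : a ≠ 0 := by
    rintro rfl
    rw [map_zero] at ha
    exact pow_ne_zero p hα0 ha.symm
  refine ⟨α, α.2, ?_, fun w hw => ?_⟩
  · intro h0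
    exact hα0 (Subtype.ext h0)
  · rw [Bs_prod E α] at hw
    have hN : Algebra.norm k α = w ^ p := (algebraMap k Ω).injective hw
    rw [hnorm] at hN
    obtain ⟨b, hb⟩ : ∃ b : k, a = b ^ p := by
      rcases hp.eq_two_or_odd' with h2 | hodd
      · obtain ⟨i, hi⟩ := hi h2
        refine ⟨i * w, ?_⟩
        rw [h2] at hN ⊢
        rw [mul_pow, hi]
        linear_combination -hN
      · refine ⟨w, ?_⟩
        rw [hodd.neg_one_pow] at hN
        linear_combination hN
    have hb0 : b ≠ 0 := by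
      rintro rfl
      rw [zero_pow hp.ne_zero] at hb
      exact ha0 hb
    have hbE : algebraMap k E b ≠ 0 := by
      intro h0
      exact hb0 ((map_eq_zero _).1 h0)
    have h1 : (α / algebraMap k E b) ^ p = 1 := by
      rw [div_pow, ← ha, hb, map_pow, div_self (pow_ne_zero p hbE)]
    have hζ' : IsPrimitiveRoot (algebraMap k E ζ) p :=
      hζ.map_of_injective (algebraMap k E).injective
    obtain ⟨j, -, hj⟩ := hζ'.eq_pow_of_pow_eq_one h1
    apply hαk (ζ ^ j * b)
    rw [map_mul, map_pow, hj, div_mul_cancel₀ _ hbE]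

end Pool.Agent.H43.SW
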