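import Pool.Agent.H43.SW.Df

/-!
Row Cf (MP_9924a2_SW, about 80 lines): finitely many classes become trivial over a normal subgroup of finite index.

PROOF.  For `b ∈ Fx T` with `φ b ∈ Fx ⊤`: for `g : G`, `φ (act g b - b) = 0`, so `act g b = b + ι (χ g)`, `χ : G → ZMod p` (`ker`, choice), and `χ (g t) = χ g` for `t ∈ T`, so `χ` is determined by its values on `G ⧸ T`: a function `c_b : G ⧸ T → ZMod p`, `c_b x = χ x.out`; there are finitely many
functions `c : G ⧸ T → ZMod p`.  For each function `c` for which there is such a `b` choose one, `b_c`; `S` = all `φ b_c`.  If `a ∈ Fx ⊤`, `a = φ b`, `b ∈ Fx T`, let `c = c_b`, `b' = b_c`: `act g (b - b') = b - b'` for all `g` (write `g = x.out t`, `t ∈ T`; `act g b = act x.out b = b + ι (c x)` and the same for `b'`), so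
`b - b' ∈ Fx ⊤` and `a = φ b' + φ (b - b')`.
-/

set_option autoImplicit false

namespace Pool.Agent.H43.SW

universe u v

variable {p : ℕ} [Fact p.Prime] {G : Type u} [Group G] {A : Type v} [AddCommGroup A] (D : KD p G A)

theorem cf_classes (T : Subgroup G) [T.Normal] [T.FiniteIndex] :
    ∃ S : Finset A, ∀ a ∈ D.Fx ⊤, (∃ b ∈ D.Fx T, D.φ b = a) →
      ∃ t ∈ S, ∃ b ∈ D.Fx ⊤, a = t + D.φ b := by
  classical
  obtain ⟨P, hP⟩ : ∃ P : ((G ⧸ T) → ZMod p) → A → Prop, P = fun c b =>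
      b ∈ D.Fx T ∧ ∀ x : G ⧸ T, D.act x.out b = b + D.ι (c x) := ⟨_, rfl⟩
  have hex : ∀ b ∈ D.Fx T, D.φ b ∈ D.Fx ⊤ → ∃ c, P c b := by
    intro b hb hφ
    have h1 : ∀ x : G ⧸ T, ∃ j, D.ι j = D.act x.out b - b := by
      intro x
      apply (D.ker _).1
      rw [map_sub, D.comm, hφ x.out (Subgroup.mem_top _), sub_self]
    choose c hc using h1
    refine ⟨c, ?_⟩
    rw [hP]
    refine ⟨hb, fun x => ?_⟩
    rw [hc]
    abel
  have hβ : ∃ β : ((G ⧸ T) → ZMod p) → A, ∀ c, (∃ b, P c b) → P c (β c) := by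
    refine ⟨fun c => if h : ∃ b, P c b then h.choose else 0, fun c h => ?_⟩
    simp only [dif_pos h]
    exact h.choose_spec
  obtain ⟨β, hβ⟩ := hβ
  have hfin : Fintype ((G ⧸ T) → ZMod p) := Fintype.ofFinite _
  refine ⟨Finset.univ.image (fun c => D.φ (β c)), ?_⟩
  rintro a ha ⟨b, hb, rfl⟩
  obtain ⟨c, hc⟩ := hex b hb ha
  have hc' := hβ c ⟨b, hc⟩
  rw [hP] at hc hc'
  obtain ⟨_, hc2⟩ := hc
  obtain ⟨hb', hc2'⟩ := hc'
  refine ⟨D.φ (β c), Finset.mem_image.2 ⟨c, Finset.mem_univ _, rfl⟩, b - β c, ?_, ?_⟩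
  · intro g _
    obtain ⟨h, hh⟩ := QuotientGroup.mk_out_eq_mul T g
    have hg : g = (QuotientGroup.mk g : G ⧸ T).out * (h : G)⁻¹ := by
      rw [hh]
      group
    rw [hg, map_mul]
    change D.act _ (D.act _ (b - β c)) = _
    rw [map_sub (D.act (h : G)⁻¹), hb _ (T.inv_mem h.2), hb' _ (T.inv_mem h.2), map_sub, hc2, hc2']
    abel
  · rw [map_sub]
    abel

end Pool.Agent.H43.SW
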