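import Pool.Agent.H43.SW.Nr

/-!
Row Cy (MP_9924a2_SW, about 180 lines): one Kummer step.  `U` of finite index, `φ e` fixed by `U`, `e` not fixed by `U`.

PROOF.
`kchar`: for `u ∈ U`: `φ (act u e - e) = act u (φ e) - φ e = 0`, so `act u e = e + ι j` (`ker`).  `χ u := j` (choice; unique by `inj`); `χ (u v) = χ u + χ v`: `act (u v) e = act u (e + ι (χ v)) = e + ι (χ u) + ι (χ v)` (`fix`).
`kchar_surj`: some `u ∈ U` has `act u e ≠ e`, so the range of `χ` is a nonzero subgroup of `ZMod p`, `p` prime: everything (`IsSimpleAddGroup`, or: `χ (u ^ m) = m χ u` and `χ u` is invertible).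
`st_index`: `St U e` is the image of `ker χ`; `U/ker χ ≅ ZMod p` has `p` elements: `(St U e).relIndex U = p` (`Subgroup.index_ker`, `Nat.card_zmod`), and `Subgroup.relIndex_mul_index`.
`st_nm`: for `j : ZMod p` choose `τ j ∈ U` with `χ (τ j) = j`.  The map `(G ⧸ U) × ZMod p → G ⧸ St U e`, `(x, j) ↦ class of x.out * τ j` is a bijection (injective: `x.out τ j ≡ x'.out τ j'` mod `St U e ≤ U` gives `x = x'`, then `(τ j)⁻¹ τ j' ∈ St U e`, so `j = j'`; surjective:
 `g = x.out * u` with `x` the class of `g`, `u ∈ U`, `(τ (χ u))⁻¹ u ∈ St U e`).  `e ∈ Fx (St U e)`, so with `nm_out` for the section given by this bijection `Nm (St U e) e = ∑_x ∑_j act (x.out * τ j) e = ∑_x act x.out (∑_j (e + ι j))`.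
`st_nm_mul`: if `φ a = p • a` for all `a`: `∑_j (e + ι j) = p • e + ι (∑ j) = φ e + ι (∑ j)`; `Nm U (ι _) = U.index • ι _ = ι (U.index • _) = 0` as `p ∣ U.index` (`ZMod`, characteristic `p`).
-/

set_option autoImplicit false

namespace Pool.Agent.H43.SW

universe u v

variable {p : ℕ} [Fact p.Prime] {G : Type u} [Group G] {A : Type v} [AddCommGroup A] (D : KD p G A)
  {U : Subgroup G} [U.FiniteIndex] {e : A}

theorem Cy_ker (χ : U →* Multiplicative (ZMod p))
    (hχ : ∀ u : U, D.act (u : G) e = e + D.ι (χ u).toAdd) (u : U) :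
    D.act (u : G) e = e ↔ χ u = 1 := by
  constructor
  · intro h
    rw [hχ u, add_eq_left] at h
    have h1 : (χ u).toAdd = 0 := D.inj (by rw [h, map_zero])
    exact Multiplicative.toAdd.injective h1
  · intro h
    rw [hχ u, h, toAdd_one, map_zero, add_zero]

theorem Cy_fi (he : D.φ e ∈ D.Fx U) (hn : e ∉ D.Fx U) (h : (D.St U e).index = U.index * p) :
    (D.St U e).FiniteIndex := by
  refine ⟨?_⟩
  rw [h]
  exact Nat.mul_ne_zero Subgroup.FiniteIndex.index_ne_zero (Fact.out : p.Prime).ne_zero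

theorem kchar (he : D.φ e ∈ D.Fx U) :
    ∃ χ : U →* Multiplicative (ZMod p), ∀ u : U, D.act (u : G) e = e + D.ι (χ u).toAdd := by
  have hex : ∀ u : U, ∃ j : ZMod p, D.act (u : G) e = e + D.ι j := by
    intro u
    have h1 : D.φ (D.act (u : G) e - e) = 0 := by
      rw [map_sub, D.comm, (D.mem_Fx.1 he) u u.2, sub_self]
    obtain ⟨j, hj⟩ := (D.ker _).1 h1
    exact ⟨j, by rw [hj]; abel⟩
  choose f hf using hex
  have hmul : ∀ u v : U, f (u * v) = f u + f v := by
    intro u v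
    apply D.inj
    have h1 := hf (u * v)
    rw [Subgroup.coe_mul, map_mul] at h1
    change D.act (u : G) (D.act (v : G) e) = _ at h1
    rw [hf v, map_add, hf u, D.fix, add_assoc] at h1
    rw [map_add]
    exact (add_left_cancel h1).symm
  exact ⟨MonoidHom.mk' (fun u => Multiplicative.ofAdd (f u))
    (fun u v => congrArg Multiplicative.ofAdd (hmul u v)), hf⟩

theorem kchar_surj (hn : e ∉ D.Fx U) (χ : U →* Multiplicative (ZMod p))
    (hχ : ∀ u : U, D.act (u : G) e = e + D.ι (χ u).toAdd) : Function.Surjective χ := by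
  have h1 : ∃ u : U, D.act (u : G) e ≠ e := by
    by_contra h
    push Not at h
    exact hn (D.mem_Fx.2 fun u hu => h ⟨u, hu⟩)
  obtain ⟨u, hu⟩ := h1
  have h2 : (χ u).toAdd ≠ 0 := by
    intro h
    apply hu
    rw [hχ u, h, map_zero, add_zero]
  intro j
  refine ⟨u ^ (j.toAdd * ((χ u).toAdd)⁻¹).val, ?_⟩
  rw [map_pow]
  apply Multiplicative.toAdd.injective
  rw [toAdd_pow, nsmul_eq_mul, ZMod.natCast_val, ZMod.cast_id', id, mul_assoc, inv_mul_cancel₀ h2, mul_one]

theorem st_index (he : D.φ e ∈ D.Fx U) (hn : e ∉ D.Fx U) : (D.St U e).index = U.index * p := by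
  obtain ⟨χ, hχ⟩ := kchar D he
  have hs := kchar_surj D hn χ hχ
  have hle : D.St U e ≤ U := fun u hu => hu.1
  have h1 : (D.St U e).subgroupOf U = χ.ker := by
    ext u
    rw [Subgroup.mem_subgroupOf, MonoidHom.mem_ker, ← Cy_ker D χ hχ u]
    exact ⟨fun h => h.2, fun h => ⟨u.2, h⟩⟩
  have h2 : (D.St U e).relIndex U = p := by
    rw [Subgroup.relIndex, h1, Subgroup.index_ker, MonoidHom.range_eq_top.2 hs,
      Nat.card_congr (Subgroup.topEquiv (G := Multiplicative (ZMod p))).toEquiv,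
      Nat.card_congr (Multiplicative.toAdd (α := ZMod p)), Nat.card_zmod]
  rw [← Subgroup.relIndex_mul_index hle, h2, mul_comm]

theorem st_nm (he : D.φ e ∈ D.Fx U) (hn : e ∉ D.Fx U) :
    D.Nm (D.St U e) e = D.Nm U (∑ j : ZMod p, (e + D.ι j)) := by
  classical
  obtain ⟨χ, hχ⟩ := kchar D he
  have hs := kchar_surj D hn χ hχ
  have hle : D.St U e ≤ U := fun u hu => hu.1
  haveI : (D.St U e).FiniteIndex := Cy_fi D he hn (st_index D he hn)
  have hs' : ∀ j : ZMod p, ∃ u : U, (χ u).toAdd = j := fun j => by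
    obtain ⟨u, hu⟩ := hs (Multiplicative.ofAdd j)
    exact ⟨u, by rw [hu]; rfl⟩
  choose τ hτ using hs'
  let F : (G ⧸ U) × ZMod p → G ⧸ D.St U e := fun z => ((z.1.out * (τ z.2 : G) : G) : G ⧸ D.St U e)
  have hmem : ∀ u v : U, χ u = χ v → (u : G)⁻¹ * (v : G) ∈ D.St U e := by
    intro u v huv
    refine ⟨U.mul_mem (U.inv_mem u.2) v.2, ?_⟩
    have h1 := (Cy_ker D χ hχ (u⁻¹ * v)).2 (by rw [map_mul, map_inv, huv, inv_mul_cancel])
    exact h1
  have hF : Function.Bijective F := by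
    constructor
    · rintro ⟨x, j⟩ ⟨x', j'⟩ h
      have h1 : (x.out * (τ j : G))⁻¹ * (x'.out * (τ j' : G)) ∈ D.St U e := QuotientGroup.eq.1 h
      have h2 : x.out⁻¹ * x'.out ∈ U := by
        have h3 := U.mul_mem (U.mul_mem (τ j).2 (hle h1)) (U.inv_mem (τ j').2)
        have h4 : (τ j : G) * ((x.out * (τ j : G))⁻¹ * (x'.out * (τ j' : G))) * (τ j' : G)⁻¹ =
            x.out⁻¹ * x'.out := by group
        rwa [h4] at h3
      have h5 : x = x' := by
        have h6 : (x.out : G ⧸ U) = x'.out := QuotientGroup.eq.2 h2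
        rwa [QuotientGroup.out_eq', QuotientGroup.out_eq'] at h6
      subst h5
      have h7 : (x.out * (τ j : G))⁻¹ * (x.out * (τ j' : G)) = ((τ j)⁻¹ * τ j' : U) := by
        rw [Subgroup.coe_mul, Subgroup.coe_inv]
        group
      rw [h7] at h1
      have h8 := (Cy_ker D χ hχ _).1 h1.2
      rw [map_mul, map_inv, inv_mul_eq_one] at h8
      have h9 : j = j' := by rw [← hτ j, ← hτ j', h8]
      rw [h9]
    · intro y
      obtain ⟨g, rfl⟩ := QuotientGroup.mk_surjective y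
      have h1 : ((g : G ⧸ U).out)⁻¹ * g ∈ U := by
        rw [← QuotientGroup.eq, QuotientGroup.out_eq']
      refine ⟨((g : G ⧸ U), (χ ⟨_, h1⟩).toAdd), ?_⟩
      show (((g : G ⧸ U).out * (τ (χ ⟨_, h1⟩).toAdd : G) : G) : G ⧸ D.St U e) = g
      rw [QuotientGroup.eq]
      have h2 : χ (τ (χ ⟨_, h1⟩).toAdd) = χ ⟨_, h1⟩ := Multiplicative.toAdd.injective (hτ _)
      have h3 := hmem _ _ h2
      have h4 : ((g : G ⧸ U).out * (τ (χ ⟨_, h1⟩).toAdd : G))⁻¹ * g =
          (τ (χ ⟨_, h1⟩).toAdd : G)⁻¹ * (((g : G ⧸ U).out)⁻¹ * g) := by group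
      rw [h4]
      exact h3
  let E : (G ⧸ U) × ZMod p ≃ G ⧸ D.St U e := Equiv.ofBijective F hF
  have heF : e ∈ D.Fx (D.St U e) := fun u hu => hu.2
  rw [nm_out D heF (fun y => (E.symm y).1.out * (τ (E.symm y).2 : G)) (fun y => E.apply_symm_apply y)]
  rw [← finsum_comp_equiv E]
  have h1 : ∀ z : (G ⧸ U) × ZMod p,
      D.act ((E.symm (E z)).1.out * (τ (E.symm (E z)).2 : G)) e =
        D.act z.1.out (e + D.ι z.2) := by
    intro z
    rw [E.symm_apply_apply, map_mul]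
    change D.act z.1.out (D.act (τ z.2 : G) e) = _
    rw [hχ, hτ]
  rw [finsum_congr h1]
  letI : Fintype (G ⧸ U) := Fintype.ofFinite _
  unfold KD.Nm
  rw [finsum_eq_sum_of_fintype, finsum_eq_sum_of_fintype, Fintype.sum_prod_type]
  exact Finset.sum_congr rfl fun x _ => (map_sum (D.act x.out) _ _).symm

theorem st_nm_mul (hφ : ∀ a, D.φ a = p • a) (he : D.φ e ∈ D.Fx U) (hn : e ∉ D.Fx U)
    (hp : p ∣ U.index) : D.Nm (D.St U e) e = D.Nm U (D.φ e) := by
  rw [st_nm D he hn]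
  have h1 : ∑ j : ZMod p, (e + D.ι j) = D.φ e + D.ι (∑ j : ZMod p, j) := by
    rw [Finset.sum_add_distrib, Finset.sum_const, Finset.card_univ, ZMod.card, hφ, map_sum]
  rw [h1, nm_add, nm_iota, ← map_nsmul]
  have h2 : U.index • (∑ j : ZMod p, j) = 0 := by
    rw [nsmul_eq_mul, (ZMod.natCast_eq_zero_iff _ _).2 hp, zero_mul]
  rw [h2, map_zero, add_zero]

end Pool.Agent.H43.SW
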