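import Mathlib

/-! Kummer data for a group acting on an abelian group (MP_9924a2_lc): definitions. -/

set_option autoImplicit false

namespace Pool.Agent.H43.SW

universe u v

/-- A group `G` acting on an abelian group `A`, an equivariant surjective endomorphism `φ` whose
kernel is cyclic of order `p` with trivial action. -/
structure KD (p : ℕ) (G : Type u) [Group G] (A : Type v) [AddCommGroup A] where
  act : G →* AddMonoid.End A
  φ : AddMonoid.End A
  ι : ZMod p →+ A
  comm : ∀ g a, φ (act g a) = act g (φ a)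
  surj : Function.Surjective φ
  inj : Function.Injective ι
  ker : ∀ a, φ a = 0 ↔ ∃ j, ι j = a
  fix : ∀ g j, act g (ι j) = ι j

variable {p : ℕ} {G : Type u} [Group G] {A : Type v} [AddCommGroup A]

/-- The elements fixed by `U`. -/
def KD.Fx (D : KD p G A) (U : Subgroup G) : AddSubgroup A where
  carrier := {a | ∀ u ∈ U, D.act u a = a}
  add_mem' := by
    intro a b ha hb u hu
    rw [map_add, ha u hu, hb u hu]
  zero_mem' := fun u _ => map_zero _
  neg_mem' := by
    intro a ha u hu
    rw [map_neg, ha u hu]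

theorem KD.mem_Fx (D : KD p G A) {U : Subgroup G} {a : A} :
    a ∈ D.Fx U ↔ ∀ u ∈ U, D.act u a = a := Iff.rfl

/-- The stabiliser of `e` in `U`. -/
def KD.St (D : KD p G A) (U : Subgroup G) (e : A) : Subgroup G where
  carrier := {u | u ∈ U ∧ D.act u e = e}
  mul_mem' := by
    rintro a b ⟨ha, ha'⟩ ⟨hb, hb'⟩
    refine ⟨U.mul_mem ha hb, ?_⟩
    rw [map_mul]
    change D.act a (D.act b e) = e
    rw [hb', ha']
  one_mem' := ⟨U.one_mem, by rw [map_one]; rfl⟩
  inv_mem' := by
    rintro a ⟨ha, ha'⟩
    refine ⟨U.inv_mem ha, ?_⟩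
    have h : D.act a⁻¹ (D.act a e) = e := by
      change (D.act a⁻¹ * D.act a) e = e
      rw [← map_mul, inv_mul_cancel, map_one]
      rfl
    rwa [ha'] at h

theorem KD.mem_St (D : KD p G A) {U : Subgroup G} {e : A} {u : G} :
    u ∈ D.St U e ↔ u ∈ U ∧ D.act u e = e := Iff.rfl

/-- The sum of the conjugates of `a` over `G ⧸ U`. -/
noncomputable def KD.Nm (D : KD p G A) (U : Subgroup G) (a : A) : A :=
  ∑ᶠ x : G ⧸ U, D.act x.out a

end Pool.Agent.H43.SW
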