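import Mathlib

/-!
Row Dv (MP_9924a2_SW, about 120 lines): an automorphism whose order on some finite extension is divisible by `p`.

PROOF.  Let `Q ≥ E` be finite-dimensional and Galois over `M` (`IntermediateField.normalClosure M E Ω`, or `FiniteGaloisIntermediateField.adjoin M S` for a finite `S` generating `E`).  `p ∣ finrank M E ∣ finrank M Q` (tower law, `IntermediateField.finrank_dvd_of_le`...) `= Nat.card (Q ≃ₐ[M] Q)` (`IsGalois.card_aut_eq_finrank`).  Cauchy
(`exists_prime_orderOf_dvd_card'`): `s : Q ≃ₐ[M] Q` of order `p`; it is the restriction of some `σ0 : Ω ≃ₐ[M] Ω` (`AlgEquiv.restrictNormalHom_surjective`): if `σ0 ^ j` fixes `Q` pointwise then `p ∣ j` (`orderOf_dvd_iff_pow_eq_one`).  `Q = M⟮θ⟯` (`Field.exists_primitive_element`); let `L0` be finite-dimensional and normal over `K` with `θ ∈ L0`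
(`FiniteGaloisIntermediateField.adjoin K {θ}`, `FiniteGaloisIntermediateField.subset_adjoin`; see also `Pck_big` in Pool/Agent/H43/SG/Pck.lean).  If `σ0 ^ j` fixes `L0` pointwise, it fixes `θ` and `M`, so `Q` pointwise, so `p ∣ j`.
-/

set_option autoImplicit false

namespace Pool.Agent.H43.SW

universe u

theorem dv {K M Ω : Type u} [Field K] [Field M] [Field Ω] [Algebra K M] [Algebra M Ω]
    [Algebra K Ω] [IsScalarTower K M Ω] [IsGalois K Ω] [IsGalois M Ω] {p : ℕ} (hp : p.Prime)
    (E : IntermediateField M Ω) [FiniteDimensional M E] (hE : p ∣ Module.finrank M E) :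
    ∃ (σ0 : Ω ≃ₐ[M] Ω) (L0 : IntermediateField K Ω), FiniteDimensional K L0 ∧ Normal K L0 ∧
      ∀ j : ℕ, (∀ x ∈ L0, (σ0 ^ j) x = x) → p ∣ j := by
  let Q : IntermediateField M Ω := IntermediateField.normalClosure M E Ω
  have hfd : FiniteDimensional M Q := normalClosure.is_finiteDimensional M E Ω
  have hgal : IsGalois M Q := IsGalois.normalClosure M E Ω
  have hEQ : E ≤ Q := IntermediateField.le_normalClosure E
  have hpQ : p ∣ Nat.card (Q ≃ₐ[M] Q) := by
    rw [IsGalois.card_aut_eq_finrank]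
    exact hE.trans (IntermediateField.finrank_dvd_of_le_right hEQ)
  have hp' : Fact p.Prime := ⟨hp⟩
  obtain ⟨s, hs⟩ := exists_prime_orderOf_dvd_card' (G := Q ≃ₐ[M] Q) p hpQ
  obtain ⟨σ0, hσ⟩ := AlgEquiv.restrictNormalHom_surjective (F := M) (K₁ := Q) Ω s
  obtain ⟨θ, hθ⟩ := Field.exists_primitive_element M Q
  let A := FiniteGaloisIntermediateField.adjoin K ({(θ : Ω)} : Set Ω)
  refine ⟨σ0, A.toIntermediateField, inferInstance, inferInstance, fun j hj => ?_⟩
  have hA : (θ : Ω) ∈ A.toIntermediateField :=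
    FiniteGaloisIntermediateField.subset_adjoin K ({(θ : Ω)} : Set Ω) rfl
  have h1 : (σ0 ^ j) (θ : Ω) = θ := hj _ hA
  have h2 : (s ^ j) θ = θ := by
    apply Subtype.ext
    rw [← hσ, ← map_pow, AlgEquiv.restrictNormalHom_apply]
    exact h1
  have h3 : ∀ x : Q, (s ^ j) x = x := by
    intro x
    have hx : x ∈ IntermediateField.adjoin M ({θ} : Set Q) := by
      rw [hθ]
      exact IntermediateField.mem_top
    refine IntermediateField.adjoin_induction M (p := fun x _ => (s ^ j) x = x)
      ?_ ?_ ?_ ?_ ?_ hx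
    · intro y hy
      rw [Set.mem_singleton_iff.1 hy]
      exact h2
    · intro y
      exact AlgEquiv.commutes _ _
    · intro a b _ _ ha hb
      rw [map_add, ha, hb]
    · intro a _ ha
      rw [map_inv₀, ha]
    · intro a b _ _ ha hb
      rw [map_mul, ha, hb]
  rw [← hs, orderOf_dvd_iff_pow_eq_one]
  exact AlgEquiv.ext h3

end Pool.Agent.H43.SW
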