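import Mathlib

/-!
Row Ex (MP_9924a2_SW, about 150 lines): from quotients of Galois groups to fields.

PROOF.
`ex_one`: `Ω/F` is Galois; `π' : (Ω ≃ₐ[F] Ω) →* H`, `π' g = π (g as an element of F.fixingSubgroup)` (`IntermediateField.fixingSubgroupEquiv F : F.fixingSubgroup ≃* (Ω ≃ₐ[F] Ω)`), surjective.  `B = π'.ker` is normal.  `Q1 : IntermediateField F Ω := IntermediateField.extendScalars hFQ`, finite-dimensional over `F`, `Q1.fixingSubgroup ≤ B` (`hQ`).
So `B` is open (`Subgroup.isOpen_mono`, `IntermediateField.fixingSubgroup_isOpen`), hence closed (`Subgroup.isClosed_of_isOpen`).  `E := IntermediateField.fixedField B : IntermediateField F Ω` has `E.fixingSubgroup = B` (`InfiniteGalois.fixingSubgroup_fixedField ⟨B, _⟩`), is finite-dimensional (`InfiniteGalois.isOpen_iff_finite`) and Galois over `F`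
(`InfiniteGalois.normal_iff_isGalois`), and its group is `(Ω ≃ₐ[F] Ω) ⧸ B` (`InfiniteGalois.normalAutEquivQuotient`), `≃* H` (`QuotientGroup.quotientKerEquivOfSurjective`).
`ex_sub`: `F' := IntermediateField.fixedField (j.range.comap e.toMonoidHom) : IntermediateField F E`; `Gal(E/F') ≃* j.range.comap e` (`IntermediateField.fixingSubgroupEquiv`, `IntermediateField.fixingSubgroup_fixedField`) `≃* j.range ≃* H`.
-/

set_option autoImplicit false

namespace Pool.Agent.H43.SW

universe u v w

theorem ex_one {M Ω : Type u} [Field M] [Field Ω] [Algebra M Ω] [IsGalois M Ω]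
    (F : IntermediateField M Ω) [FiniteDimensional M F] {H : Type v} [Group H]
    (π : F.fixingSubgroup →* H) (hπ : Function.Surjective π)
    (Q : IntermediateField M Ω) [FiniteDimensional M Q] (hFQ : F ≤ Q)
    (hQ : ∀ γ : F.fixingSubgroup, (γ : Ω ≃ₐ[M] Ω) ∈ Q.fixingSubgroup → π γ = 1) :
    ∃ (E : Type u) (_ : Field E) (_ : Algebra F E), FiniteDimensional F E ∧ IsGalois F E ∧
      Nonempty ((E ≃ₐ[F] E) ≃* H) := by
  let eF := IntermediateField.fixingSubgroupEquiv F
  let π' : (Ω ≃ₐ[F] Ω) →* H := π.comp eF.symm.toMonoidHom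
  have hπ' : Function.Surjective π' := hπ.comp eF.symm.surjective
  let Q1 : IntermediateField F Ω := IntermediateField.extendScalars hFQ
  have hmem : ∀ x : Ω, x ∈ Q1 ↔ x ∈ Q := fun x => Iff.rfl
  have hfd0 : FiniteDimensional M Q1 := by
    let f : Q →ₗ[M] Q1 :=
      { toFun := fun x => ⟨x.1, (hmem _).2 x.2⟩
        map_add' := fun _ _ => rfl
        map_smul' := fun _ _ => rfl }
    refine Module.Finite.of_surjective f ?_
    rintro ⟨x, hx⟩
    exact ⟨⟨x, (hmem x).1 hx⟩, rfl⟩
  have hfd : FiniteDimensional F Q1 := Module.Finite.of_restrictScalars_finite M F Q1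
  have hle : Q1.fixingSubgroup ≤ π'.ker := by
    intro g hg
    rw [MonoidHom.mem_ker]
    show π (eF.symm g) = 1
    apply hQ
    rw [IntermediateField.mem_fixingSubgroup_iff] at hg ⊢
    intro x hx
    exact hg x ((hmem x).2 hx)
  have hopen : IsOpen (π'.ker : Set (Ω ≃ₐ[F] Ω)) :=
    Subgroup.isOpen_mono hle (IntermediateField.fixingSubgroup_isOpen Q1)
  have hclosed : IsClosed (π'.ker : Set (Ω ≃ₐ[F] Ω)) := Subgroup.isClosed_of_isOpen _ hopen
  let B : ClosedSubgroup (Ω ≃ₐ[F] Ω) := ⟨π'.ker, hclosed⟩
  have hnorm : B.1.Normal := inferInstanceAs π'.ker.Normal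
  have hfix := InfiniteGalois.fixingSubgroup_fixedField B
  let E := IntermediateField.fixedField B.1
  refine ⟨E, inferInstance, inferInstance, ?_, ?_, ?_⟩
  · apply (InfiniteGalois.isOpen_iff_finite E).1
    show IsOpen ((IntermediateField.fixedField B.1).fixingSubgroup : Set (Ω ≃ₐ[F] Ω))
    rw [hfix]
    exact hopen
  · apply (InfiniteGalois.normal_iff_isGalois E).1
    show (IntermediateField.fixedField B.1).fixingSubgroup.Normal
    rw [hfix]
    exact hnorm
  · exact ⟨(InfiniteGalois.normalAutEquivQuotient B).symm.trans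
      (QuotientGroup.quotientKerEquivOfSurjective π' hπ')⟩

theorem ex_sub {F E : Type u} [Field F] [Field E] [Algebra F E] [FiniteDimensional F E]
    [IsGalois F E] {P : Type v} {H : Type w} [Group P] [Group H] (e : (E ≃ₐ[F] E) ≃* P)
    (j : H →* P) (hj : Function.Injective j) :
    ∃ (F' : Type u) (_ : Field F') (_ : Algebra F F') (_ : Algebra F' E),
      IsScalarTower F F' E ∧ FiniteDimensional F F' ∧ Algebra.IsSeparable F F' ∧
      FiniteDimensional F' E ∧ IsGalois F' E ∧ Nonempty ((E ≃ₐ[F'] E) ≃* H) := by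
  let K : Subgroup (E ≃ₐ[F] E) := j.range.comap e.toMonoidHom
  let F' : IntermediateField F E := IntermediateField.fixedField K
  have h1 : K.map e.toMonoidHom = j.range :=
    Subgroup.map_comap_eq_self_of_surjective e.surjective _
  refine ⟨F', inferInstance, inferInstance, inferInstance, inferInstance, inferInstance,
    inferInstance, inferInstance, inferInstance, ⟨?_⟩⟩
  exact (IntermediateField.subgroupEquivAlgEquiv K).symm.trans
    ((e.subgroupMap K).trans ((MulEquiv.subgroupCongr h1).trans
      (MonoidHom.ofInjective hj).symm))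

end Pool.Agent.H43.SW
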