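import Mathlib

/-!
Row Ga (MP_9924a2_SW, about 220 lines): the orders.  `G` a group, `U1` normal of prime index `p`, `U ≤ U1` of index `p ^ (m+1)` in `G`, with the largest possible `G / core U`.

PROOF.  `K0 := KK U1 U` (the kernel of `U1` acting on `U1/U`), normal in `U1` (`K0 ≤ U1`; `h K0 h⁻¹ = K0` for `h ∈ U1`).  For `g : G` put `K_g = g K0 g⁻¹` (`≤ U1`, normal in `U1`; `K_{gh} = K_g` for `h ∈ U1`); `U.normalCore = ⋂_g g U g⁻¹ = ⋂_{i<p} K_{σ^i}`, as every `g` is `σ^i h` with `i < p`, `h ∈ U1`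
 (`G ⧸ U1` has prime order `p` and `σ ∉ U1` generates it).  Write `s m = ∑ i ∈ range m, p ^ i`, so `s (m+1) = 1 + p s m` and `s (m+1) = s m + p ^ m`.
`ga_fact`: `(p ^ m)! = p ^ (s m) * c` with `p ∤ c`: `padicValNat_factorial_mul` (or `Nat.Prime.multiplicity_factorial_mul`...) by induction on `m`: `v_p ((p * p ^ m)!) = v_p ((p ^ m)!) + p ^ m`.
`ga_le`: `r := K0.relIndex U1` divides `p ^ (s m)`: `U1/K0` embeds in `Equiv.Perm (U1/U)`, `|U1/U| = p ^ m` (`index`), so `r ∣ (p ^ m)!` (`Subgroup.card_subgroup_dvd_card`, `MulAction.toPermHom`, first isomorphism theorem); `r` divides `U.normalCore.index`, a power of `p` (`U.normalCore ≤ K0`); so `r` is a power of `p`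
 dividing `p ^ (s m) * c`, `p ∤ c`.
`ga_index`: all `K_{σ^i}` have relative index `r` in `U1` (conjugation by `σ^i` preserves `U1`).  `U.normalCore.relIndex U1 = p ^ (s (m+1)) / p = p ^ (p s m)`.  With `K' = K_{σ⁻¹} = K_{σ^(p-1)}` (`σ^p ∈ U1`): `p ^ (p s m) = (⋂ K_{σ^i}).relIndex U1 ≤ (K0 ⊓ K').relIndex U1 * r ^ (p-2)` (`Subgroup.relIndex_inf_le`, induction over the other
 `p - 2` indices; for `p = 2` the two are all) `≤ (K0 ⊓ K').relIndex U1 * p ^ ((p-2) s m)`, so `(K0 ⊓ K').relIndex U1 ≥ p ^ (2 s m)`, while `(K0 ⊓ K').relIndex U1 ≤ r * r ≤ p ^ (2 s m)`.  So `r = p ^ (s m)` and `(K0 ⊓ K').relIndex U1 = r * r`, hence `(K0 ⊓ K').relIndex K0 = r = K'.relIndex U1`: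
 the map `K0/(K0 ⊓ K') → U1/K'` is injective between finite sets of the same size, so surjective: `U1 = K' K0`.  Given `b ∈ U1`: `b = τ κ`, `τ ∈ K'`, `κ ∈ K0`; `b⁻¹ τ = κ⁻¹ (up to order: write b = τ κ, b⁻¹ τ = κ⁻¹ ∈ K0)`; `σ τ σ⁻¹ ∈ K0`.
 (Any other organisation is fine, e.g. the homomorphism `U1 → ∏_{i<p} U1/K_{σ^i}` with kernel `U.normalCore`: it is surjective because `|U1 / core| = p ^ (p s m) ≥ r ^ p`.  Then choose `τ ∈ U1` with `τ ≡ b mod K0` and `τ ≡ 1 mod K_{σ^i}` for `0 < i < p`.)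
-/

set_option autoImplicit false

namespace Pool.Agent.H43.SW

universe u

variable {p : ℕ} [Fact p.Prime] {G : Type u} [Group G]

/-- The kernel of the action of `U1` on `U1 / U`. -/
def KK (U1 U : Subgroup G) : Subgroup G where
  carrier := {g | g ∈ U1 ∧ ∀ h ∈ U1, h * g * h⁻¹ ∈ U}
  mul_mem' := by
    rintro a b ⟨ha, ha'⟩ ⟨hb, hb'⟩
    refine ⟨U1.mul_mem ha hb, fun h hh => ?_⟩
    have e : h * (a * b) * h⁻¹ = (h * a * h⁻¹) * (h * b * h⁻¹) := by group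
    rw [e]
    exact U.mul_mem (ha' h hh) (hb' h hh)
  one_mem' := ⟨U1.one_mem, fun h _ => by
    rw [mul_one, mul_inv_cancel]
    exact U.one_mem⟩
  inv_mem' := by
    rintro a ⟨ha, ha'⟩
    refine ⟨U1.inv_mem ha, fun h hh => ?_⟩
    have e : h * a⁻¹ * h⁻¹ = (h * a * h⁻¹)⁻¹ := by group
    rw [e]
    exact U.inv_mem (ha' h hh)

theorem ga_fact (m : ℕ) : ∃ c : ℕ, ¬ p ∣ c ∧ (p ^ m).factorial = p ^ (∑ i ∈ Finset.range m, p ^ i) * c := by
  have hp : p.Prime := Fact.out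
  have hv : ∀ m : ℕ, padicValNat p (p ^ m).factorial = ∑ i ∈ Finset.range m, p ^ i := by
    intro m
    induction m with
    | zero => simp
    | succ m ih =>
      rw [pow_succ', padicValNat_factorial_mul, ih, Finset.sum_range_succ]
  obtain ⟨e, c, hc, h⟩ := Nat.exists_eq_pow_mul_and_not_dvd (Nat.factorial_ne_zero (p ^ m)) p
    hp.ne_one
  refine ⟨c, hc, ?_⟩
  have h1 := hv m
  have hc0 : c ≠ 0 := by
    rintro rfl
    exact hc (dvd_zero p)
  rw [h, padicValNat.mul (pow_ne_zero _ hp.ne_zero) hc0, padicValNat.prime_pow,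
    padicValNat.eq_zero_of_not_dvd hc, add_zero] at h1
  rw [h, h1]

theorem Ga_conj {U1 U : Subgroup G} {x u : G} (hx : x ∈ KK U1 U) (hu : u ∈ U1) :
    u * x * u⁻¹ ∈ KK U1 U := by
  refine ⟨U1.mul_mem (U1.mul_mem hu hx.1) (U1.inv_mem hu), fun h hh => ?_⟩
  have e : h * (u * x * u⁻¹) * h⁻¹ = (h * u) * x * (h * u)⁻¹ := by group
  rw [e]
  exact hx.2 _ (U1.mul_mem hh hu)

theorem Ga_dvd {U1 U : Subgroup G} {N : ℕ} (hN : U.relIndex U1 = N) (hN0 : N ≠ 0) :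
    (KK U1 U).relIndex U1 ∣ N.factorial := by
  set H : Subgroup U1 := U.subgroupOf U1 with hH
  have hidx : H.index = N := hN
  haveI : Finite (U1 ⧸ H) := by
    apply Nat.finite_of_card_ne_zero
    change H.index ≠ 0
    rw [hidx]
    exact hN0
  have hcore : H.normalCore = (KK U1 U).subgroupOf U1 := by
    ext x
    rw [Subgroup.mem_subgroupOf]
    constructor
    · intro hx
      exact ⟨x.2, fun h hh => hx ⟨h, hh⟩⟩
    · intro hx b
      exact hx.2 b b.2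
  rw [Subgroup.relIndex, ← hcore, Subgroup.normalCore_eq_ker, Subgroup.index_ker]
  refine (Subgroup.card_subgroup_dvd_card _).trans ?_
  rw [Nat.card_perm]
  have h1 : Nat.card (U1 ⧸ H) = N := hidx
  rw [h1]

theorem Ga_sup {Γ : Type*} [Group Γ] {H0 H1 : Subgroup Γ} [H1.Normal]
    (h : (H0 ⊓ H1).index = H0.index * H1.index) (h0 : H0.index ≠ 0) (h1 : H1.index ≠ 0) (b : Γ) :
    ∃ κ ∈ H0, ∃ τ ∈ H1, κ * τ = b := by
  have e1 : H1.relIndex H0 = H1.index := by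
    have e2 := Subgroup.relIndex_mul_index (H := H0 ⊓ H1) (K := H0) inf_le_left
    rw [Subgroup.inf_relIndex_left, h, mul_comm H0.index] at e2
    exact Nat.eq_of_mul_eq_mul_right (Nat.pos_of_ne_zero h0) e2
  have e3 : H1.relIndex (H0 ⊔ H1) = H1.relIndex H0 := Subgroup.relIndex_sup_right H0 H1
  have e4 := Subgroup.relIndex_mul_index (H := H1) (K := H0 ⊔ H1) le_sup_right
  rw [e3, e1] at e4
  have e5 : (H0 ⊔ H1).index = 1 := by
    apply Nat.eq_of_mul_eq_mul_left (Nat.pos_of_ne_zero h1)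
    rw [e4, mul_one]
  rw [Subgroup.index_eq_one] at e5
  have e6 : b ∈ ((H0 ⊔ H1 : Subgroup Γ) : Set Γ) := by
    rw [e5]
    exact Subgroup.mem_top b
  rw [Subgroup.mul_normal, Set.mem_mul] at e6
  exact e6

/-- The intersection of `K 0, …, K (n + 1)`. -/
def GaJ (K : ℕ → Subgroup G) : ℕ → Subgroup G
  | 0 => K 0 ⊓ K 1
  | (n + 1) => GaJ K n ⊓ K (n + 2)

theorem Ga_mem (K : ℕ → Subgroup G) (n : ℕ) {g : G} (hg : g ∈ GaJ K n) (i : ℕ) (hi : i < n + 2) :
    g ∈ K i := by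
  induction n with
  | zero =>
    have h1 : g ∈ K 0 ∧ g ∈ K 1 := hg
    have h2 : i = 0 ∨ i = 1 := by omega
    rcases h2 with rfl | rfl
    · exact h1.1
    · exact h1.2
  | succ n ih =>
    have h1 : g ∈ GaJ K n ∧ g ∈ K (n + 2) := hg
    rcases Nat.lt_or_ge i (n + 2) with h2 | h2
    · exact ih h1.1 h2
    · have h3 : i = n + 2 := by omega
      rw [h3]
      exact h1.2

theorem Ga_rel (K : ℕ → Subgroup G) (L : Subgroup G) {r : ℕ} (hr : r ≠ 0)
    (hK : ∀ i, (K i).relIndex L = r) (n : ℕ) :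
    (GaJ K n).relIndex L ≤ (K 0 ⊓ K 1).relIndex L * r ^ n ∧ (GaJ K n).relIndex L ≠ 0 := by
  induction n with
  | zero =>
    rw [pow_zero, mul_one]
    refine ⟨le_rfl, ?_⟩
    apply Subgroup.relIndex_inf_ne_zero
    · rw [hK]; exact hr
    · rw [hK]; exact hr
  | succ n ih =>
    constructor
    · calc (GaJ K (n + 1)).relIndex L ≤ (GaJ K n).relIndex L * (K (n + 2)).relIndex L :=
          Subgroup.relIndex_inf_le
        _ ≤ (K 0 ⊓ K 1).relIndex L * r ^ n * r := by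
          rw [hK]
          exact Nat.mul_le_mul_right _ ih.1
        _ = _ := by rw [pow_succ, mul_assoc]
    · apply Subgroup.relIndex_inf_ne_zero ih.2
      rw [hK]
      exact hr

theorem Ga_pow {U1 : Subgroup G} [U1.Normal] (h1 : U1.index = p) {σ : G} (hσ : σ ∉ U1) (a : G) :
    ∃ i < p, a * (σ ^ i)⁻¹ ∈ U1 := by
  have hp : p.Prime := Fact.out
  have hcard : Nat.card (G ⧸ U1) = p := h1
  have hne : (QuotientGroup.mk' U1 σ) ≠ 1 := by
    intro h
    apply hσ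
    rwa [QuotientGroup.mk'_apply, QuotientGroup.eq_one_iff] at h
  obtain ⟨k, hk⟩ := mem_powers_of_prime_card hcard hne (g' := QuotientGroup.mk' U1 a)
  refine ⟨k % p, Nat.mod_lt _ hp.pos, ?_⟩
  rw [← QuotientGroup.eq_one_iff, ← QuotientGroup.mk'_apply, map_mul, map_inv, map_pow, ← hk]
  have h2 : (QuotientGroup.mk' U1 σ) ^ p = 1 := by
    rw [← hcard]
    exact pow_card_eq_one'
  have h3 : (QuotientGroup.mk' U1 σ) ^ k = (QuotientGroup.mk' U1 σ) ^ (k % p) := by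
    conv_lhs => rw [← Nat.mod_add_div k p, pow_add, pow_mul, h2, one_pow, mul_one]
  change (QuotientGroup.mk' U1 σ) ^ k * _ = 1
  rw [h3, mul_inv_cancel]

theorem ga_index {U1 U : Subgroup G} [U1.Normal] (h1 : U1.index = p) (hU : U ≤ U1) {m : ℕ}
    (hm : U.index = p ^ (m + 1))
    (hc : U.normalCore.index = p ^ (∑ i ∈ Finset.range (m + 1), p ^ i)) {σ : G} (hσ : σ ∉ U1) :
    (KK U1 U).relIndex U1 = p ^ (∑ i ∈ Finset.range m, p ^ i) ∧
      ∀ b ∈ U1, ∃ τ ∈ U1, σ * τ * σ⁻¹ ∈ KK U1 U ∧ b⁻¹ * τ ∈ KK U1 U := by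
  have hp : p.Prime := Fact.out
  set S : ℕ := ∑ i ∈ Finset.range m, p ^ i with hS
  have hS1 : ∑ i ∈ Finset.range (m + 1), p ^ i = p * S + 1 := by
    rw [Finset.sum_range_succ', pow_zero, hS, Finset.mul_sum]
    congr 1
    apply Finset.sum_congr rfl
    intro i _
    rw [pow_succ']
  rw [hS1] at hc
  have hK0 : KK U1 U ≤ U1 := fun x hx => hx.1
  have hcoreK : U.normalCore ≤ KK U1 U := by
    intro x hx
    exact ⟨hU (Subgroup.normalCore_le U hx), fun h _ => hx h⟩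
  have hcoreU1 : U.normalCore.relIndex U1 = p ^ (p * S) := by
    have e1 := Subgroup.relIndex_mul_index (hcoreK.trans hK0)
    rw [h1, hc, pow_succ] at e1
    exact Nat.eq_of_mul_eq_mul_right hp.pos e1
  have hUU1 : U.relIndex U1 = p ^ m := by
    have e1 := Subgroup.relIndex_mul_index hU
    rw [h1, hm, pow_succ] at e1
    exact Nat.eq_of_mul_eq_mul_right hp.pos e1
  set r : ℕ := (KK U1 U).relIndex U1 with hr
  have hrdvd : r ∣ p ^ (p * S) := by
    rw [← hcoreU1]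
    exact Subgroup.relIndex_dvd_of_le_left _ hcoreK
  have hr0 : r ≠ 0 := by
    intro h0
    rw [h0, zero_dvd_iff] at hrdvd
    exact pow_ne_zero _ hp.ne_zero hrdvd
  have hrle : r ≤ p ^ S := by
    obtain ⟨c, hc1, hc2⟩ := ga_fact (p := p) m
    have e1 := Ga_dvd hUU1 (pow_ne_zero _ hp.ne_zero)
    rw [hc2, ← hr, ← hS] at e1
    obtain ⟨t, _, ht⟩ := (Nat.dvd_prime_pow hp).1 hrdvd
    have hcop : Nat.Coprime r c := by
      rw [ht]
      exact Nat.Coprime.pow_left _ ((Nat.Prime.coprime_iff_not_dvd hp).2 hc1)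
    exact Nat.le_of_dvd (Nat.pos_of_ne_zero (pow_ne_zero _ hp.ne_zero))
      (hcop.dvd_of_dvd_mul_right e1)
  let K : ℕ → Subgroup G := fun i => (KK U1 U).comap (MulAut.conj (σ ^ i)).toMonoidHom
  have hKmem : ∀ i g, g ∈ K i ↔ σ ^ i * g * (σ ^ i)⁻¹ ∈ KK U1 U := fun i g => Iff.rfl
  have hKr : ∀ i, (K i).relIndex U1 = r := by
    intro i
    have e1 : U1.map (MulAut.conj (σ ^ i)).toMonoidHom = U1 := by
      ext x
      rw [Subgroup.mem_map]
      constructor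
      · rintro ⟨y, hy, rfl⟩
        exact Subgroup.Normal.conj_mem inferInstance y hy (σ ^ i)
      · intro hx
        refine ⟨(σ ^ i)⁻¹ * x * σ ^ i, ?_, ?_⟩
        · have e2 := Subgroup.Normal.conj_mem (H := U1) inferInstance x hx (σ ^ i)⁻¹
          rwa [inv_inv] at e2
        · change σ ^ i * ((σ ^ i)⁻¹ * x * σ ^ i) * (σ ^ i)⁻¹ = x
          group
    change ((KK U1 U).comap (MulAut.conj (σ ^ i)).toMonoidHom).relIndex U1 = r
    rw [Subgroup.relIndex_comap, e1]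
  obtain ⟨hrel, hrel0⟩ := Ga_rel K U1 hr0 hKr (p - 2)
  have hp2 : 2 ≤ p := hp.two_le
  have hJ : GaJ K (p - 2) ≤ U.normalCore := by
    intro g hg a
    obtain ⟨i, hi, hia⟩ := Ga_pow h1 hσ a
    have e1 := (hKmem i g).1 (Ga_mem K (p - 2) hg i (by omega))
    have e2 := e1.2 _ hia
    have e3 : a * (σ ^ i)⁻¹ * (σ ^ i * g * (σ ^ i)⁻¹) * (a * (σ ^ i)⁻¹)⁻¹ = a * g * a⁻¹ := by
      group
    rwa [e3] at e2
  have hchain : p ^ (p * S) ≤ (K 0 ⊓ K 1).relIndex U1 * r ^ (p - 2) := by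
    rw [← hcoreU1]
    exact (Subgroup.relIndex_le_of_le_left hJ hrel0).trans hrel
  have hJ0 : (K 0 ⊓ K 1).relIndex U1 ≤ r * r := by
    have e1 := Subgroup.relIndex_inf_le (H := K 0) (K := K 1) (L := U1)
    rwa [hKr, hKr] at e1
  have hrp : r * r * r ^ (p - 2) = r ^ p := by
    rw [← sq, ← pow_add]
    congr 1
    omega
  have hreq : r = p ^ S := by
    apply le_antisymm hrle
    have e1 : (p ^ S) ^ p ≤ r ^ p := by
      rw [← pow_mul, mul_comm S p, ← hrp]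
      exact hchain.trans (Nat.mul_le_mul_right _ hJ0)
    exact (Nat.pow_le_pow_iff_left hp.ne_zero).1 e1
  have hJeq : (K 0 ⊓ K 1).relIndex U1 = r * r := by
    apply le_antisymm hJ0
    have e1 : r * r * r ^ (p - 2) ≤ (K 0 ⊓ K 1).relIndex U1 * r ^ (p - 2) := by
      rw [hrp]
      refine le_trans (le_of_eq ?_) hchain
      rw [hreq, ← pow_mul, mul_comm S p]
    exact Nat.le_of_mul_le_mul_right e1 (Nat.pos_of_ne_zero (pow_ne_zero _ hr0))
  refine ⟨hreq, fun b hb => ?_⟩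
  have hK00 : K 0 = KK U1 U := by
    ext g
    rw [hKmem, pow_zero, one_mul, inv_one, mul_one]
  have hnorm : ((K 1).subgroupOf U1).Normal := by
    constructor
    intro x hx u
    rw [Subgroup.mem_subgroupOf, hKmem] at hx ⊢
    have e1 : σ ^ 1 * ((u * x * u⁻¹ : U1) : G) * (σ ^ 1)⁻¹ =
        (σ ^ 1 * (u : G) * (σ ^ 1)⁻¹) * (σ ^ 1 * (x : G) * (σ ^ 1)⁻¹) *
          (σ ^ 1 * (u : G) * (σ ^ 1)⁻¹)⁻¹ := by
      push_cast
      group
    rw [e1]
    exact Ga_conj hx (Subgroup.Normal.conj_mem inferInstance (u : G) u.2 (σ ^ 1))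
  obtain ⟨κ, hκ, τ, hτ, hb'⟩ := Ga_sup (H0 := (K 0).subgroupOf U1) (H1 := (K 1).subgroupOf U1)
    (by
      have e1 : (K 0).subgroupOf U1 ⊓ (K 1).subgroupOf U1 = (K 0 ⊓ K 1).subgroupOf U1 := rfl
      rw [e1]
      change (K 0 ⊓ K 1).relIndex U1 = (K 0).relIndex U1 * (K 1).relIndex U1
      rw [hJeq, hKr, hKr])
    (by
      change (K 0).relIndex U1 ≠ 0
      rw [hKr]
      exact hr0)
    (by
      change (K 1).relIndex U1 ≠ 0
      rw [hKr]
      exact hr0) (⟨b, hb⟩ : U1)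
  rw [Subgroup.mem_subgroupOf] at hκ hτ
  rw [hK00] at hκ
  have hτ' := (hKmem 1 _).1 hτ
  rw [pow_one] at hτ'
  refine ⟨τ, τ.2, hτ', ?_⟩
  have e1 : b = κ * τ := by
    have e2 := congrArg (fun x : U1 => (x : G)) hb'
    simp only [Subgroup.coe_mul] at e2
    exact e2.symm
  have e3 : b⁻¹ * (τ : G) = (τ : G)⁻¹ * (κ : G)⁻¹ * ((τ : G)⁻¹)⁻¹ := by
    rw [e1]
    group
  rw [e3]
  exact Ga_conj ((KK U1 U).inv_mem hκ) (U1.inv_mem τ.2)

end Pool.Agent.H43.SW
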