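import Pool.Agent.H43.SW.Ga

/-!
Row Gp (MP_9924a2_SW, about 150 lines): the quotient is a Sylow subgroup of the symmetric group.

PROOF.  `Y = U1 ⧸ U.subgroupOf U1`, `Nat.card Y = p ^ m` (`hi`); `ε : Y ≃ Fin (p ^ m)`.  `ρ = MulAction.toPermHom U1 Y : U1 →* Equiv.Perm Y` has kernel `(U.subgroupOf U1).normalCore` (`Subgroup.normalCore_eq_ker`), and `g : U1` is in it iff `(g : G) ∈ KK U1 U` (`h * g * h⁻¹ ∈ U` for all `h ∈ U1`).  `ρ' : U1 →* Equiv.Perm (Fin (p ^ m))` := `ρ` followed by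
`ε.permCongrHom` (or `Equiv.permCongr` as a `MulEquiv`); the same kernel.  Its range has `(KK U1 U).relIndex U1 = p ^ s` elements, `s = ∑ i ∈ range m, p ^ i` (`Subgroup.index_ker`, `hk`).  `Nat.card (Equiv.Perm (Fin (p ^ m))) = (p ^ m)! = p ^ s * c` with `p ∤ c` (`ga_fact`), so `(p ^ m)!.factorization p = s` and the range is a Sylow
`p`-subgroup `P'` (`Sylow.ofCard`).  `P' = g • P`-type conjugacy (`MulAction.exists_smul_eq (Equiv.Perm _) P' P`, Sylow): `a * x * a⁻¹ ∈ P ↔ x ∈ P'`.  `π u = ⟨a * ρ' u * a⁻¹, _⟩` (`MulAut.conj`, `MonoidHom.codRestrict`): surjective, the same kernel.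
-/

set_option autoImplicit false

namespace Pool.Agent.H43.SW

universe u

variable {p : ℕ} [Fact p.Prime] {G : Type u} [Group G]

omit [Fact p.Prime] in
theorem Gp_ker {U1 U : Subgroup G} (g : U1) :
    MulAction.toPermHom U1 (U1 ⧸ U.subgroupOf U1) g = 1 ↔ (g : G) ∈ KK U1 U := by
  constructor
  · intro h
    refine ⟨g.2, fun x hx => ?_⟩
    have h1 := DFunLike.congr_fun h
      (QuotientGroup.mk (⟨x, hx⟩ : U1)⁻¹ : U1 ⧸ U.subgroupOf U1)
    have h2 : (QuotientGroup.mk (g * (⟨x, hx⟩ : U1)⁻¹) : U1 ⧸ U.subgroupOf U1) =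
        QuotientGroup.mk (⟨x, hx⟩ : U1)⁻¹ := h1
    rw [eq_comm, QuotientGroup.eq, Subgroup.mem_subgroupOf] at h2
    have h3 : (((⟨x, hx⟩ : U1)⁻¹⁻¹ * (g * (⟨x, hx⟩ : U1)⁻¹) : U1) : G) = x * g * x⁻¹ := by
      push_cast
      group
    rwa [h3] at h2
  · rintro ⟨-, h⟩
    ext y
    obtain ⟨x, rfl⟩ := QuotientGroup.mk_surjective y
    change (QuotientGroup.mk (g * x) : U1 ⧸ U.subgroupOf U1) = QuotientGroup.mk x
    rw [eq_comm, QuotientGroup.eq, Subgroup.mem_subgroupOf]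
    have h3 : ((x⁻¹ * (g * x) : U1) : G) = (x : G)⁻¹ * g * ((x : G)⁻¹)⁻¹ := by
      push_cast
      group
    rw [h3]
    exact h _ (U1.inv_mem x.2)

theorem gp_perm {U1 U : Subgroup G} (hU : U ≤ U1) {m : ℕ} (hi : U.relIndex U1 = p ^ m)
    (hk : (KK U1 U).relIndex U1 = p ^ (∑ i ∈ Finset.range m, p ^ i))
    (P : Sylow p (Equiv.Perm (Fin (p ^ m)))) :
    ∃ π : U1 →* P, Function.Surjective π ∧ ∀ g : U1, π g = 1 ↔ (g : G) ∈ KK U1 U := by
  have hp : p.Prime := Fact.out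
  have hcard : Nat.card (U1 ⧸ U.subgroupOf U1) = p ^ m := hi
  have hfin : Finite (U1 ⧸ U.subgroupOf U1) :=
    Nat.finite_of_card_ne_zero (by rw [hcard]; exact pow_ne_zero _ hp.ne_zero)
  let ε : (U1 ⧸ U.subgroupOf U1) ≃ Fin (p ^ m) := Finite.equivFinOfCardEq hcard
  let ρ : U1 →* Equiv.Perm (Fin (p ^ m)) :=
    (Equiv.permCongrHom ε : Equiv.Perm (U1 ⧸ U.subgroupOf U1) ≃* Equiv.Perm (Fin (p ^ m))).toMonoidHom.comp
      (MulAction.toPermHom U1 (U1 ⧸ U.subgroupOf U1))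
  have hρ : ∀ g : U1, ρ g = 1 ↔ (g : G) ∈ KK U1 U := by
    intro g
    rw [← Gp_ker]
    exact map_eq_one_iff _
      (Equiv.permCongrHom ε : Equiv.Perm (U1 ⧸ U.subgroupOf U1) ≃* Equiv.Perm (Fin (p ^ m))).injective
  have hker : ρ.ker = (KK U1 U).subgroupOf U1 := by
    ext g
    rw [MonoidHom.mem_ker, hρ, Subgroup.mem_subgroupOf]
  obtain ⟨c, hc, hf⟩ := ga_fact (p := p) m
  have hr : Nat.card ρ.range = p ^ (Nat.card (Equiv.Perm (Fin (p ^ m)))).factorization p := by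
    rw [← Subgroup.index_ker, hker]
    have h1 : ((KK U1 U).subgroupOf U1).index = p ^ (∑ i ∈ Finset.range m, p ^ i) := hk
    rw [h1, Nat.card_eq_fintype_card, Fintype.card_perm, Fintype.card_fin, hf]
    have hc0 : c ≠ 0 := by
      rintro rfl
      exact hc (dvd_zero p)
    rw [Nat.factorization_mul (pow_ne_zero _ hp.ne_zero) hc0, Finsupp.add_apply,
      hp.factorization_pow, Finsupp.single_eq_same, Nat.factorization_eq_zero_of_not_dvd hc,
      add_zero]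
  let P' : Sylow p (Equiv.Perm (Fin (p ^ m))) := Sylow.ofCard ρ.range hr
  have hP' : ∀ x, x ∈ P' ↔ x ∈ ρ.range := fun x => Iff.rfl
  obtain ⟨a, ha⟩ := MulAction.exists_smul_eq (Equiv.Perm (Fin (p ^ m))) P' P
  have hmem : ∀ x, x ∈ P ↔ a⁻¹ * x * a ∈ ρ.range := by
    intro x
    rw [← hP', ← ha]
    change x ∈ ((a • P' : Sylow p (Equiv.Perm (Fin (p ^ m)))) :
      Subgroup (Equiv.Perm (Fin (p ^ m)))) ↔ _
    rw [Sylow.coe_subgroup_smul]
    rw [Subgroup.mem_pointwise_smul_iff_inv_smul_mem, ← map_inv, MulAut.smul_def,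
      MulAut.conj_apply, inv_inv]
    rfl
  let π : U1 →* P := MonoidHom.codRestrict ((MulAut.conj a).toMonoidHom.comp ρ)
    (P : Subgroup (Equiv.Perm (Fin (p ^ m)))) (fun u => by
      change a * ρ u * a⁻¹ ∈ P
      rw [hmem]
      have h1 : a⁻¹ * (a * ρ u * a⁻¹) * a = ρ u := by group
      rw [h1]
      exact ⟨u, rfl⟩)
  have hπ : ∀ u, ((π u : P) : Equiv.Perm (Fin (p ^ m))) = a * ρ u * a⁻¹ := fun u => rfl
  refine ⟨π, ?_, fun g => ?_⟩
  · rintro ⟨y, hy⟩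
    have hy' : y ∈ P := hy
    obtain ⟨u, hu⟩ := (hmem y).1 hy'
    refine ⟨u, Subtype.ext ?_⟩
    rw [hπ, hu]
    change a * (a⁻¹ * y * a) * a⁻¹ = y
    group
  · rw [← hρ g]
    constructor
    · intro h
      have h1 := congrArg (fun x : P => (x : Equiv.Perm (Fin (p ^ m)))) h
      have h2 : a * ρ g * a⁻¹ = 1 := h1
      have h3 : ρ g = a⁻¹ * (a * ρ g * a⁻¹) * a := by group
      rw [h3, h2]
      group
    · intro h
      apply Subtype.ext
      rw [hπ, h]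
      change a * 1 * a⁻¹ = 1
      group

end Pool.Agent.H43.SW
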