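import Mathlib

/-!
Row Gq (MP_9924a2_SW, about 60 lines): Cayley and Sylow.

PROOF.  `MulAction.toPermHom H H` (left multiplication) is injective; `ε : H ≃ Fin (p ^ m)` (`Finite.equivFinOfCardEq`); composing with `ε.permCongrHom` (`Equiv.permCongr` as a `MulEquiv`) gives an injective `j0 : H →* Equiv.Perm (Fin (p ^ m))`.  Its range is a `p`-group (`IsPGroup.of_card`, `Nat.card H = p ^ m`), so it is contained in a Sylow subgroup `Q`
(`IsPGroup.exists_le_sylow`), and `Q`, `P` are conjugate (`MulAction.exists_smul_eq (Equiv.Perm _) Q P`): conjugate `j0` by this element; it takes values in `P`.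
-/

set_option autoImplicit false

namespace Pool.Agent.H43.SW

universe v

variable {p : ℕ} [Fact p.Prime]

theorem gq_embed {H : Type v} [Group H] [Finite H] {m : ℕ} (hH : Nat.card H = p ^ m)
    (P : Sylow p (Equiv.Perm (Fin (p ^ m)))) : ∃ j : H →* P, Function.Injective j := by
  obtain ⟨ε⟩ : Nonempty (H ≃ Fin (p ^ m)) := ⟨Finite.equivFinOfCardEq hH⟩
  obtain ⟨j0, hj0⟩ : ∃ j0 : H →* Equiv.Perm (Fin (p ^ m)), Function.Injective j0 :=
    ⟨(ε.permCongrHom.toMonoidHom).comp (MulAction.toPermHom H H),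
      ε.permCongrHom.injective.comp MulAction.toPerm_injective⟩
  have hP : IsPGroup p j0.range := by
    refine IsPGroup.of_card (n := m) ?_
    exact (Nat.card_congr (MonoidHom.ofInjective hj0).toEquiv).symm.trans hH
  obtain ⟨Q, hQ⟩ := hP.exists_le_sylow
  obtain ⟨g, hg⟩ := MulAction.exists_smul_eq (Equiv.Perm (Fin (p ^ m))) Q P
  have hmem : ∀ x, ((MulAut.conj g).toMonoidHom.comp j0) x ∈ P := by
    intro x
    rw [← hg]
    have h1 : j0 x ∈ Q := hQ ⟨x, rfl⟩
    exact Subgroup.smul_mem_pointwise_smul (j0 x) (MulAut.conj g) (Q : Subgroup _) h1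
  refine ⟨((MulAut.conj g).toMonoidHom.comp j0).codRestrict P hmem, ?_⟩
  intro x y hxy
  have h1 := congrArg Subtype.val hxy
  exact hj0 ((MulAut.conj g).injective h1)

end Pool.Agent.H43.SW
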