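import Mathlib

/-!
Row Kf (MP_9924a2_SW, about 140 lines): the fixed field of an automorphism.

PROOF.  `s = σ.restrictNormal L : L ≃ₐ[K] L` (`AlgEquiv.restrictNormal_commutes`; `((s ^ n) x : Ω) = (σ ^ n) x`, see `Cor_pow` in Pool/Agent/H43/SG/Cor.lean), `orderOf s = p` (`hord`, as in `Cor_data` there).  `k' = IntermediateField.fixedField (Subgroup.zpowers s) : IntermediateField K L`, `k0 = IntermediateField.lift k'` (`≤ L`): `x ∈ k0` iff
`x ∈ L` and `s ⟨x, _⟩ = ⟨x, _⟩` iff `x ∈ L ∧ σ x = x`.  Finite-dimensional over `K` (contained in `L`: `IntermediateField.finiteDimensional_left`-type, or `FiniteDimensional.of_injective`).  `L1 = IntermediateField.extendScalars (h : k0 ≤ L) : IntermediateField k0 Ω` (`IntermediateField.mem_extendScalars`).  Normal over `k0`: `L` is normal over `K`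
(e.g. `Normal.tower_top_of_normal K k0 L1` with the tower `K → k0 → L1`; `L1` and `L` have the same underlying field; or `Normal` via `IntermediateField.normal_iff_forall_map_le`: for a `k0`-algebra map `f : Ω → Ω`, `f L ≤ L`).  `finrank k0 L1 = p`: `finrank K k0 * finrank k0 L1 = finrank K L` (`Module.finrank_mul_finrank`), `finrank K k0 = finrank K k'`
(`IntermediateField.liftAlgEquiv` is a `K`-isomorphism), `finrank K k' * finrank k' L = finrank K L`, `finrank k' L = Nat.card (zpowers s) = p` (`IntermediateField.finrank_fixedField_eq_card`, `Nat.card_zpowers`).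
-/

set_option autoImplicit false

namespace Pool.Agent.H43.SW

universe u

theorem kf {K Ω : Type u} [Field K] [Field Ω] [Algebra K Ω] (L : IntermediateField K Ω)
    [FiniteDimensional K L] [Normal K L] (σ : Ω ≃ₐ[K] Ω) {p : ℕ} (hp : p.Prime)
    (hord : ∀ j : ℕ, (∀ x ∈ L, (σ ^ j) x = x) ↔ p ∣ j) :
    ∃ (k0 : IntermediateField K Ω) (L1 : IntermediateField k0 Ω),
      (∀ x, x ∈ k0 ↔ x ∈ L ∧ σ x = x) ∧ FiniteDimensional K k0 ∧ (∀ x : Ω, x ∈ L1 ↔ x ∈ L) ∧
      Normal k0 L1 ∧ FiniteDimensional k0 L1 ∧ Module.finrank k0 L1 = p := by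
  have hs0 : ∀ x : L, ((σ.restrictNormal L x : L) : Ω) = σ (x : Ω) :=
    fun x => σ.restrictNormal_commutes L x
  generalize hs0e : σ.restrictNormal L = s0 at hs0
  have hpow : ∀ (n : ℕ) (x : L), (((s0 ^ n) x : L) : Ω) = (σ ^ n) (x : Ω) := by
    intro n
    induction n with
    | zero => intro x; rfl
    | succ n ih =>
      intro x
      rw [pow_succ, pow_succ, AlgEquiv.mul_apply, AlgEquiv.mul_apply, ih, hs0]
  have hone : ∀ n : ℕ, s0 ^ n = 1 ↔ p ∣ n := by
    intro n
    rw [← hord n]
    constructor
    · intro h x hx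
      have := hpow n ⟨x, hx⟩
      rw [h] at this
      exact this.symm
    · intro h
      ext x
      rw [hpow n x]
      exact h x x.2
  have hordm : orderOf s0 = p :=
    Nat.dvd_antisymm (orderOf_dvd_iff_pow_eq_one.2 ((hone _).2 dvd_rfl))
      ((hone _).1 (pow_orderOf_eq_one s0))
  let k' : IntermediateField K L := IntermediateField.fixedField (Subgroup.zpowers s0)
  have hmem : ∀ x : L, x ∈ k' ↔ s0 x = x := by
    intro x
    rw [IntermediateField.mem_fixedField_iff]
    constructor
    · intro h
      exact h s0 (Subgroup.mem_zpowers s0)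
    · intro h f hf
      have h1 : s0 ∈ MulAction.stabilizer (L ≃ₐ[K] L) x := h
      exact Subgroup.zpowers_le.2 h1 hf
  let k0 : IntermediateField K Ω := IntermediateField.lift k'
  have hle : k0 ≤ L := IntermediateField.lift_le k'
  let L1 : IntermediateField k0 Ω := IntermediateField.extendScalars hle
  have hL1 : ∀ x : Ω, x ∈ L1 ↔ x ∈ L := fun x => Iff.rfl
  have hfin0 : FiniteDimensional K k' := inferInstance
  have hfin : FiniteDimensional K k0 :=
    Module.Finite.equiv (IntermediateField.liftAlgEquiv k').toLinearEquiv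
  let e : L ≃ₐ[K] L1 :=
    { toFun := fun x => ⟨x.1, x.2⟩
      invFun := fun x => ⟨x.1, x.2⟩
      left_inv := fun _ => rfl
      right_inv := fun _ => rfl
      map_mul' := fun _ _ => rfl
      map_add' := fun _ _ => rfl
      commutes' := fun _ => rfl }
  have hL1fin : FiniteDimensional K L1 := Module.Finite.equiv e.toLinearEquiv
  have hL1n : Normal K L1 := Normal.of_algEquiv e
  have hN : Normal k0 L1 := Normal.tower_top_of_normal K k0 L1
  have hF : FiniteDimensional k0 L1 := FiniteDimensional.right K k0 L1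
  refine ⟨k0, L1, ?_, hfin, hL1, hN, hF, ?_⟩
  · intro x
    constructor
    · intro hx
      have hxL : x ∈ L := hle hx
      refine ⟨hxL, ?_⟩
      obtain ⟨y, hy, hyx⟩ := hx
      have h2 := (hmem y).1 hy
      have h3 := hs0 y
      rw [h2] at h3
      have h4 : (y : Ω) = x := hyx
      rw [← h4]
      exact h3.symm
    · rintro ⟨hxL, hx⟩
      refine ⟨⟨x, hxL⟩, (hmem _).2 ?_, rfl⟩
      apply Subtype.ext
      rw [hs0]
      exact hx
  · have h1 : Module.finrank K k0 * Module.finrank k0 L1 = Module.finrank K L1 :=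
      Module.finrank_mul_finrank K k0 L1
    have h2 : Module.finrank K k0 = Module.finrank K k' :=
      (IntermediateField.liftAlgEquiv k').symm.toLinearEquiv.finrank_eq
    have h3 : Module.finrank K L1 = Module.finrank K L := e.symm.toLinearEquiv.finrank_eq
    have h4 : Module.finrank K k' * Module.finrank k' L = Module.finrank K L :=
      Module.finrank_mul_finrank K k' L
    have h5 : Module.finrank k' L = p := by
      rw [IntermediateField.finrank_fixedField_eq_card, Nat.card_zpowers, hordm]
    have h6 : 0 < Module.finrank K k' := Module.finrank_pos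
    rw [h2, h3, ← h4, h5] at h1
    exact Nat.eq_of_mul_eq_mul_left h6 h1

end Pool.Agent.H43.SW
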