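import Pool.Agent.H43.SW.Df

/-!
Row Ki (MP_9924a2_SW, about 120 lines): the Kummer data of a separably closed field.

PROOF.  `A = Additive Ωˣ`.  `act g = MonoidHom.toAdditive (Units.map (g : Ω →* Ω))`, a homomorphism in `g`.  `φ a = p • a` (in `Ωˣ`: `x ^ p`; e.g. `(powMonoidHom p).toAdditive`).  `ι j` = (unit of) `(algebraMap k Ω ζ) ^ j.val`: `ι = ZMod.lift p ⟨zmultiplesHom _ (Additive.ofMul u), _⟩` with `u` the unit `algebraMap ζ`, `u ^ p = 1`.
`comm`: `g (x ^ p) = (g x) ^ p`.  `surj`: `IsSepClosed.exists_pow_nat_eq` (`NeZero (p : Ω)`), the root of a unit is not zero.  `inj`: the kernel of `ZMod.lift` is trivial: `u ^ j = 1` with `p ∣ j` (`IsPrimitiveRoot.pow_eq_one_iff_dvd`, `zpow_eq_one_iff_dvd`; `injective_iff_map_eq_zero`).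
`ker`: `x ^ p = 1` iff `x = ζ ^ j` for some `j < p` (`IsPrimitiveRoot.eq_pow_of_pow_eq_one`).  `fix`: `g (algebraMap ζ) = algebraMap ζ`.
-/

set_option autoImplicit false

namespace Pool.Agent.H43.SW

universe u

/-- The action of the automorphisms on the units. -/
noncomputable def Ki_act (k Ω : Type u) [Field k] [Field Ω] [Algebra k Ω] :
    (Ω ≃ₐ[k] Ω) →* AddMonoid.End (Additive Ωˣ) where
  toFun g := MonoidHom.toAdditive (Units.map ((g : Ω →ₐ[k] Ω) : Ω →* Ω))
  map_one' := by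
    ext a
    rfl
  map_mul' g h := by
    ext a
    rfl

theorem Ki_act_apply {k Ω : Type u} [Field k] [Field Ω] [Algebra k Ω] (g : Ω ≃ₐ[k] Ω)
    (a : Additive Ωˣ) : ((Ki_act k Ω g a).toMul : Ω) = g (a.toMul : Ω) := rfl

theorem Ki_ext {Ω : Type u} [Field Ω] {a b : Additive Ωˣ} (h : (a.toMul : Ω) = (b.toMul : Ω)) :
    a = b := by
  apply Additive.toMul.injective
  exact Units.ext h

theorem ki {k Ω : Type u} [Field k] [Field Ω] [Algebra k Ω] [IsSepClosed Ω] {p : ℕ}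
    (hp : p.Prime) (hpk : (p : k) ≠ 0) {ζ : k} (hζ : IsPrimitiveRoot ζ p) :
    ∃ D : KD p (Ω ≃ₐ[k] Ω) (Additive Ωˣ),
      (∀ g a, ((D.act g a).toMul : Ω) = g (a.toMul : Ω)) ∧ ∀ a, D.φ a = p • a := by
  have hζ' : IsPrimitiveRoot (algebraMap k Ω ζ) p :=
    hζ.map_of_injective (algebraMap k Ω).injective
  obtain ⟨u, hu⟩ : ∃ u : Ωˣ, (u : Ω) = algebraMap k Ω ζ := hζ'.isUnit hp.ne_zero
  have hup : IsPrimitiveRoot u p := by
    rw [← IsPrimitiveRoot.coe_units_iff, hu]
    exact hζ'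
  have hpu : p • (Additive.ofMul u) = 0 := by
    rw [← ofMul_pow, hup.pow_eq_one]
    rfl
  have : NeZero (p : Ω) := ⟨by
    have h := (map_ne_zero (algebraMap k Ω)).2 hpk
    rwa [map_natCast] at h⟩
  have hpz : NeZero p := ⟨hp.ne_zero⟩
  let ι : ZMod p →+ Additive Ωˣ := ZMod.lift p
    ⟨zmultiplesHom (Additive Ωˣ) (Additive.ofMul u), by
      rw [zmultiplesHom_apply, natCast_zsmul]
      exact hpu⟩
  have hι : ∀ m : ℤ, ι (m : ZMod p) = m • Additive.ofMul u := by
    intro m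
    simp only [ι, ZMod.lift_coe, zmultiplesHom_apply]
  have hιu : ∀ m : ℕ, ι (m : ZMod p) = Additive.ofMul (u ^ m) := by
    intro m
    have := hι (m : ℤ)
    rw [Int.cast_natCast, natCast_zsmul, ← ofMul_pow] at this
    exact this
  refine ⟨{ act := Ki_act k Ω
            φ := (powMonoidHom p : Ωˣ →* Ωˣ).toAdditive
            ι := ι
            comm := ?_
            surj := ?_
            inj := ?_
            ker := ?_
            fix := ?_ }, fun g a => Ki_act_apply g a, fun a => rfl⟩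
  · intro g a
    apply Ki_ext
    change ((Units.map ((g : Ω →ₐ[k] Ω) : Ω →* Ω) a.toMul) ^ p : Ωˣ).val =
      g ((a.toMul ^ p : Ωˣ) : Ω)
    rw [Units.val_pow_eq_pow_val, Units.val_pow_eq_pow_val, map_pow]
    rfl
  · intro a
    obtain ⟨z, hz⟩ := IsSepClosed.exists_pow_nat_eq (a.toMul : Ω) p
    have hz0 : z ≠ 0 := by
      rintro rfl
      rw [zero_pow hp.ne_zero] at hz
      exact a.toMul.ne_zero hz.symm
    refine ⟨Additive.ofMul (Units.mk0 z hz0), ?_⟩
    apply Ki_ext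
    change ((Units.mk0 z hz0) ^ p : Ωˣ).val = _
    rw [Units.val_pow_eq_pow_val, Units.val_mk0, hz]
  · rw [ZMod.lift_injective]
    intro m hm
    have hm' : m • Additive.ofMul u = 0 := hm
    rw [← ofMul_zpow] at hm'
    have hm2 : u ^ m = 1 := hm'
    have hm3 : (p : ℤ) ∣ m := (hup.zpow_eq_one_iff_dvd m).1 hm2
    exact (ZMod.intCast_zmod_eq_zero_iff_dvd m p).2 hm3
  · intro a
    constructor
    · intro h
      have h1 : (a.toMul : Ω) ^ p = 1 := by
        have h2 : (a.toMul ^ p : Ωˣ) = 1 := h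
        have h3 := congrArg (fun x : Ωˣ => (x : Ω)) h2
        simpa using h3
      obtain ⟨j, -, hj⟩ := hζ'.eq_pow_of_pow_eq_one h1
      refine ⟨(j : ZMod p), ?_⟩
      rw [hιu]
      apply Ki_ext
      change ((u ^ j : Ωˣ) : Ω) = _
      rw [Units.val_pow_eq_pow_val, hu, hj]
    · rintro ⟨j, rfl⟩
      change p • (ι j) = 0
      rw [← map_nsmul, nsmul_eq_mul, ZMod.natCast_self, zero_mul, map_zero]
  · intro g j
    obtain ⟨m, rfl⟩ := ZMod.natCast_zmod_surjective j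
    rw [hιu]
    apply Ki_ext
    rw [Ki_act_apply]
    change g ((u ^ m : Ωˣ) : Ω) = ((u ^ m : Ωˣ) : Ω)
    rw [Units.val_pow_eq_pow_val, hu, map_pow, AlgEquiv.commutes]

end Pool.Agent.H43.SW
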