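import Pool.Agent.H43.SW.Df

/-!
Row Kj (MP_9924a2_SW, about 120 lines): the Kummer data of a separably closed field in terms of fields.  `hact` as in `ki`.

PROOF.
`kj_mem`: `a ∈ Fx E.fixingSubgroup` iff every `g ∈ E.fixingSubgroup` fixes the element `x = a.toMul` of `Ω` (`hact`, `Units.ext`, `Additive.toMul.injective`) iff `x ∈ IntermediateField.fixedField E.fixingSubgroup = E` (`InfiniteGalois.fixedField_fixingSubgroup`).
`kj_top`: `InfiniteGalois.mem_range_algebraMap_iff_fixed` or `kj_mem` with `E = ⊥` (`IntermediateField.fixingSubgroup_bot`, `IntermediateField.mem_bot`).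
`kj_nm`: `G ⧸ U` is finite, `∑ᶠ` is a finite sum (`finsum_eq_sum_of_fintype`); `toMul` of a sum is the product (`toMul_sum`), `Units.coe_prod`, `hact`.
`kj_st`: `g ∈ St E.fixingSubgroup e` iff `g` fixes `E` pointwise and `g x = x` for `x = e.toMul`; `(E ⊔ k⟮x⟯).fixingSubgroup = E.fixingSubgroup ⊓ k⟮x⟯.fixingSubgroup` (`IntermediateField.fixingSubgroup_sup`), and `g` fixes `k⟮x⟯` iff `g x = x` (`IntermediateField.adjoin_induction` or `IntermediateField.fixingSubgroup_adjoin`-type lemma:
 `k⟮x⟯ ≤ fixedField (Subgroup.zpowers g)`, `IntermediateField.adjoin_le_iff`, `IntermediateField.le_iff_le`).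
`kj_index`: `IntermediateField.finrank_eq_fixingSubgroup_index`.
-/

set_option autoImplicit false
set_option linter.unusedSectionVars false

namespace Pool.Agent.H43.SW

universe u

variable {k Ω : Type u} [Field k] [Field Ω] [Algebra k Ω] [IsGalois k Ω] {p : ℕ}
  (D : KD p (Ω ≃ₐ[k] Ω) (Additive Ωˣ))

theorem Kj_eq (hact : ∀ g a, ((D.act g a).toMul : Ω) = g (a.toMul : Ω)) (g : Ω ≃ₐ[k] Ω)
    (a : Additive Ωˣ) : D.act g a = a ↔ g (a.toMul : Ω) = (a.toMul : Ω) := by
  constructor
  · intro h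
    rw [← hact, h]
  · intro h
    apply Additive.toMul.injective
    apply Units.ext
    rw [hact, h]

theorem kj_mem (hact : ∀ g a, ((D.act g a).toMul : Ω) = g (a.toMul : Ω))
    (E : IntermediateField k Ω) (a : Additive Ωˣ) :
    a ∈ D.Fx E.fixingSubgroup ↔ (a.toMul : Ω) ∈ E := by
  constructor
  · intro ha
    rw [← InfiniteGalois.fixedField_fixingSubgroup E, IntermediateField.mem_fixedField_iff]
    intro g hg
    exact (Kj_eq D hact g a).1 (ha g hg)
  · intro hx g hg
    exact (Kj_eq D hact g a).2 ((IntermediateField.mem_fixingSubgroup_iff E g).1 hg _ hx)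

theorem kj_top (hact : ∀ g a, ((D.act g a).toMul : Ω) = g (a.toMul : Ω)) (a : Additive Ωˣ) :
    a ∈ D.Fx ⊤ ↔ ∃ w : k, algebraMap k Ω w = (a.toMul : Ω) := by
  have h1 := InfiniteGalois.mem_range_algebraMap_iff_fixed (k := k) (a.toMul : Ω)
  rw [Set.mem_range] at h1
  rw [h1]
  constructor
  · intro ha g
    exact (Kj_eq D hact g a).1 (ha g (Subgroup.mem_top g))
  · intro h g _
    exact (Kj_eq D hact g a).2 (h g)

theorem kj_nm (hact : ∀ g a, ((D.act g a).toMul : Ω) = g (a.toMul : Ω))
    (U : Subgroup (Ω ≃ₐ[k] Ω)) [U.FiniteIndex] [Fintype ((Ω ≃ₐ[k] Ω) ⧸ U)] (a : Additive Ωˣ) :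
    ((D.Nm U a).toMul : Ω) = ∏ x : (Ω ≃ₐ[k] Ω) ⧸ U, x.out (a.toMul : Ω) := by
  rw [KD.Nm, finsum_eq_sum_of_fintype, toMul_sum, Units.coe_prod]
  exact Finset.prod_congr rfl fun x _ => hact _ _

theorem kj_st (hact : ∀ g a, ((D.act g a).toMul : Ω) = g (a.toMul : Ω))
    (E : IntermediateField k Ω) (e : Additive Ωˣ) :
    D.St E.fixingSubgroup e =
      (E ⊔ IntermediateField.adjoin k {(e.toMul : Ω)}).fixingSubgroup := by
  ext g
  rw [KD.mem_St, IntermediateField.fixingSubgroup_sup, Subgroup.mem_inf, Kj_eq D hact]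
  refine and_congr_right fun _ => ?_
  constructor
  · intro h
    have h1 : Subgroup.zpowers g ≤ MulAction.stabilizer (Ω ≃ₐ[k] Ω) (e.toMul : Ω) := by
      rw [Subgroup.zpowers_le, MulAction.mem_stabilizer_iff]
      exact h
    have h2 : IntermediateField.adjoin k {(e.toMul : Ω)} ≤
        IntermediateField.fixedField (Subgroup.zpowers g) := by
      rw [IntermediateField.adjoin_le_iff, Set.singleton_subset_iff, SetLike.mem_coe,
        IntermediateField.mem_fixedField_iff]
      intro f hf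
      exact MulAction.mem_stabilizer_iff.1 (h1 hf)
    exact (IntermediateField.le_iff_le _ _).1 h2 (Subgroup.mem_zpowers g)
  · intro h
    exact (IntermediateField.mem_fixingSubgroup_iff _ g).1 h _
      (IntermediateField.mem_adjoin_simple_self k _)

theorem kj_index (E : IntermediateField k Ω) [FiniteDimensional k E] :
    E.fixingSubgroup.FiniteIndex ∧ E.fixingSubgroup.index = Module.finrank k E := by
  have h := IntermediateField.finrank_eq_fixingSubgroup_index Ω E
  refine ⟨⟨?_⟩, h.symm⟩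
  rw [← h]
  exact Module.finrank_pos.ne'

end Pool.Agent.H43.SW
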