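import Pool.Agent.H43.SG.Pck

/-!
Row Lm (MP_9924a2_SW, about 130 lines): an involution as a limit of powers.  `Pck_ord`, `Pck_big`: Pool/Agent/H43/SG/Pck.lean.

PROOF.  For `L ≤ Ω` finite-dimensional normal let `o L > 0` with `(∀ x ∈ L, (σ ^ n) x = x) ↔ o L ∣ n` (`Pck_ord`).  If `L0 ≤ L` then `2 ∣ o L` (`h2` for `j = o L`), and `¬ 4 ∣ o L` (`h4`: `o L ∣ j`).  Put `q L = o L / 2`, odd.  CLAIM: if `L0 ≤ L ≤ L'` then `(σ ^ q L') x = (σ ^ q L) x` for `x ∈ L`: `o L ∣ o L'`, so `q L' = q L * r`, `r` odd, and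
`q L' - q L = q L * (r - 1)` is divisible by `2 q L = o L`.
For `x : Ω` choose `L_x` finite-dimensional normal with `L0 ≤ L_x`, `x ∈ L_x` (`Pck_big`) and put `c x = (σ ^ q L_x) x`.  For every finite-dimensional normal `L ≥ L0` with `x ∈ L`: `c x = (σ ^ q L) x` (compare both with `L ⊔ L_x`).  Hence `c` is a `K`-algebra homomorphism (for `x, y` use `L_x ⊔ L_y`, which contains `x + y`, `x * y`), and
`c (c x) = (σ ^ (2 q L)) x = x` (`σ ^ q` maps `L` to `L`, `L` normal: `AlgEquiv.restrictNormal_commutes`).  So `c` is an automorphism (`AlgEquiv.ofAlgHom c c`), `c ^ 2 = 1`; `c ≠ 1`: otherwise `σ ^ q L0` is the identity on `L0`, `2 ∣ q L0` by `h2`, so `4 ∣ o L0`.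
-/

set_option autoImplicit false

namespace Pool.Agent.H43.SW

open Pool.Agent.H43.SG

universe u

/-- Comparison of the powers on two levels. -/
theorem Lm_cmp {K Ω : Type u} [Field K] [Field Ω] [Algebra K Ω] (σ : Ω ≃ₐ[K] Ω)
    (L L' : IntermediateField K Ω) (hL : L ≤ L') (q q' : ℕ) (hq : Odd q) (hq' : Odd q')
    (h : ∀ n : ℕ, (∀ x ∈ L, (σ ^ n) x = x) ↔ 2 * q ∣ n)
    (h' : ∀ n : ℕ, (∀ x ∈ L', (σ ^ n) x = x) ↔ 2 * q' ∣ n) {x : Ω} (hx : x ∈ L) :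
    (σ ^ q') x = (σ ^ q) x := by
  have h1 : 2 * q ∣ 2 * q' := (h _).1 fun x hx => (h' _).2 dvd_rfl x (hL hx)
  obtain ⟨r, hr⟩ := Nat.dvd_of_mul_dvd_mul_left two_pos h1
  have hr1 : Odd r := by
    rw [hr] at hq'
    exact (Nat.odd_mul.1 hq').2
  obtain ⟨s, hs⟩ := hr1
  have h2 : q' = q + 2 * q * s := by
    rw [hr, hs]
    ring
  rw [h2, pow_add, AlgEquiv.mul_apply, (h _).2 (Dvd.intro _ rfl) x hx]

theorem Lm_mem {K Ω : Type u} [Field K] [Field Ω] [Algebra K Ω] (L : IntermediateField K Ω)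
    [Normal K L] (τ : Ω ≃ₐ[K] Ω) {x : Ω} (hx : x ∈ L) : τ x ∈ L := by
  have h2 := AlgEquiv.restrictNormalHom_apply L τ ⟨x, hx⟩
  rw [← h2]
  exact SetLike.coe_mem _

theorem lm {K Ω : Type u} [Field K] [Field Ω] [Algebra K Ω] [IsGalois K Ω] (σ : Ω ≃ₐ[K] Ω)
    (L0 : IntermediateField K Ω) [FiniteDimensional K L0] [Normal K L0]
    (h2 : ∀ j : ℕ, (∀ x ∈ L0, (σ ^ j) x = x) → 2 ∣ j)
    (h4 : ∀ L : IntermediateField K Ω, FiniteDimensional K L → Normal K L →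
      ∃ j : ℕ, (∀ x ∈ L, (σ ^ j) x = x) ∧ ¬ 4 ∣ j) :
    ∃ c : Ω ≃ₐ[K] Ω, c ^ 2 = 1 ∧ c ≠ 1 := by
  have H : ∀ L : IntermediateField K Ω, (FiniteDimensional K L ∧ Normal K L ∧ L0 ≤ L) →
      ∃ q : ℕ, Odd q ∧ ∀ n : ℕ, (∀ x ∈ L, (σ ^ n) x = x) ↔ 2 * q ∣ n := by
    rintro L ⟨hF, hN, hle⟩
    obtain ⟨o, ho, hn⟩ := Pck_ord L σ
    have ho2 : 2 ∣ o := h2 o fun x hx => (hn o).2 dvd_rfl x (hle hx)
    obtain ⟨j, hj, hj4⟩ := h4 L hF hN
    have ho4 : ¬ 4 ∣ o := fun h => hj4 (h.trans ((hn j).1 hj))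
    obtain ⟨q, rfl⟩ := ho2
    refine ⟨q, ?_, hn⟩
    rw [← Nat.not_even_iff_odd]
    rintro ⟨s, hs⟩
    exact ho4 ⟨s, by omega⟩
  choose! q hqo hq using H
  choose Lx hF hN hle hmem using fun z : Ω => Pck_big L0 z
  obtain ⟨c, hc⟩ : ∃ c : Ω → Ω, ∀ x, c x = (σ ^ q (Lx x)) x := ⟨_, fun _ => rfl⟩
  have key : ∀ L : IntermediateField K Ω, FiniteDimensional K L → Normal K L → L0 ≤ L →
      ∀ x ∈ L, c x = (σ ^ q L) x := by
    intro L hFL hNL hleL x hx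
    have hFx := hF x
    have hNx := hN x
    have hP : FiniteDimensional K (L ⊔ Lx x : IntermediateField K Ω) ∧
        Normal K (L ⊔ Lx x : IntermediateField K Ω) ∧ L0 ≤ L ⊔ Lx x :=
      ⟨inferInstance, inferInstance, hleL.trans le_sup_left⟩
    have h1 := Lm_cmp σ L (L ⊔ Lx x) le_sup_left (q L) (q (L ⊔ Lx x)) (hqo L ⟨hFL, hNL, hleL⟩)
      (hqo _ hP) (hq L ⟨hFL, hNL, hleL⟩) (hq _ hP) hx
    have h2 := Lm_cmp σ (Lx x) (L ⊔ Lx x) le_sup_right (q (Lx x)) (q (L ⊔ Lx x))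
      (hqo _ ⟨hF x, hN x, hle x⟩) (hqo _ hP) (hq _ ⟨hF x, hN x, hle x⟩) (hq _ hP) (hmem x)
    rw [hc, ← h1, ← h2]
  have hsup : ∀ x y : Ω, ∃ L : IntermediateField K Ω, FiniteDimensional K L ∧ Normal K L ∧
      L0 ≤ L ∧ x ∈ L ∧ y ∈ L := by
    intro x y
    have hFx := hF x
    have hNx := hN x
    have hFy := hF y
    have hNy := hN y
    exact ⟨Lx x ⊔ Lx y, inferInstance, inferInstance, (hle x).trans le_sup_left,
      (le_sup_left : Lx x ≤ Lx x ⊔ Lx y) (hmem x), (le_sup_right : Lx y ≤ Lx x ⊔ Lx y) (hmem y)⟩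
  have hcc : ∀ x, c (c x) = x := by
    intro x
    obtain ⟨L, hFL, hNL, hleL, hx, -⟩ := hsup x x
    have h1 := key L hFL hNL hleL x hx
    have h2 : c x ∈ L := by
      rw [h1]
      exact Lm_mem L _ hx
    rw [key L hFL hNL hleL _ h2, h1, ← AlgEquiv.mul_apply, ← pow_add, ← two_mul]
    exact (hq L ⟨hFL, hNL, hleL⟩ _).2 dvd_rfl x hx
  let C : Ω →ₐ[K] Ω :=
    { toFun := c
      map_one' := by rw [hc, map_one]
      map_zero' := by rw [hc, map_zero]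
      map_mul' := fun x y => by
        obtain ⟨L, hFL, hNL, hleL, hx, hy⟩ := hsup x y
        rw [key L hFL hNL hleL x hx, key L hFL hNL hleL y hy,
          key L hFL hNL hleL _ (L.mul_mem hx hy), map_mul]
      map_add' := fun x y => by
        obtain ⟨L, hFL, hNL, hleL, hx, hy⟩ := hsup x y
        rw [key L hFL hNL hleL x hx, key L hFL hNL hleL y hy,
          key L hFL hNL hleL _ (L.add_mem hx hy), map_add]
      commutes' := fun r => by rw [hc, AlgEquiv.commutes] }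
  have hC : C.comp C = AlgHom.id K Ω := AlgHom.ext hcc
  refine ⟨AlgEquiv.ofAlgHom C C hC hC, AlgEquiv.ext fun x => ?_, fun h => ?_⟩
  · rw [pow_two, AlgEquiv.mul_apply]
    exact hcc x
  · have h1 : ∀ x ∈ L0, (σ ^ q L0) x = x := by
      intro x hx
      rw [← key L0 inferInstance inferInstance le_rfl x hx]
      exact AlgEquiv.congr_fun h x
    have h5 := h2 _ h1
    have h6 := hqo L0 ⟨inferInstance, inferInstance, le_rfl⟩
    exact (Nat.not_even_iff_odd.2 h6) (even_iff_two_dvd.2 h5)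

end Pool.Agent.H43.SW
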