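import Pool.Agent.H43.SW.Lm

/-!
Row Pk (MP_9924a2_SW, about 100 lines): choice of the automorphism.  Use `Pck_step`, `Pck_zeta`, `Pck_ord`, `Pck_big` of Pool/Agent/H43/SG/Pck.lean (see the proof of `pck` there) and the STATEMENT of `lm`.

PROOF.
`p` odd: let `ζ ∈ Ω` be a primitive `p`-th root of unity (`HasEnoughRootsOfUnity.exists_primitiveRoot Ω p`, as in `pck`).  `Pck_step σ0 L0 h ζ` gives `m`, `L`; `n = m`; `(σ0 ^ m) ζ = ζ` by `Pck_zeta`.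
`p = 2`: `ζ = -1 ∈ K`, `(2 : Ω) ≠ 0`; `i ^ 2 = -1` (`IsSepClosed.exists_pow_nat_eq`).  By `lm` and `htor` there is `L1` finite-dimensional normal such that all `j` with `σ0 ^ j` trivial on `L1` are divisible by `4` (contraposition of `h4`).  `Pck_step σ0 L1 (q := 4) _ i` gives `m`, `L` with `i ∈ L`, `σ0 ^ m` of order `4` on `L`; `n = 2 m`:
`((σ0 ^ (2 m)) ^ j = ((σ0 ^ m) ^ (2 j)` is trivial on `L` iff `4 ∣ 2 j` iff `2 ∣ j`; `σ0 ^ m i = ± i`, so `(σ0 ^ (2 m)) i = i`.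
-/

set_option autoImplicit false

namespace Pool.Agent.H43.SW

open Pool.Agent.H43.SG

universe u

theorem pk {K Ω : Type u} [Field K] [Field Ω] [Algebra K Ω] [IsGalois K Ω] [IsSepClosed Ω]
    (htor : ∀ c : Ω ≃ₐ[K] Ω, c ^ 2 = 1 → c = 1) {p : ℕ} (hp : p.Prime) (hpK : (p : K) ≠ 0)
    (σ0 : Ω ≃ₐ[K] Ω) (L0 : IntermediateField K Ω) [FiniteDimensional K L0] [Normal K L0]
    (h : ∀ j : ℕ, (∀ x ∈ L0, (σ0 ^ j) x = x) → p ∣ j) :
    ∃ (n : ℕ) (L : IntermediateField K Ω), FiniteDimensional K L ∧ Normal K L ∧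
      (∀ j : ℕ, (∀ x ∈ L, ((σ0 ^ n) ^ j) x = x) ↔ p ∣ j) ∧
      (∃ ζ ∈ L, (σ0 ^ n) ζ = ζ ∧ IsPrimitiveRoot ζ p) ∧
      (p = 2 → ∃ i ∈ L, (σ0 ^ n) i = i ∧ i ^ 2 = -1) := by
  have hcΩ : (p : Ω) ≠ 0 := by
    intro h0
    apply hpK
    apply (algebraMap K Ω).injective
    rw [map_natCast, map_zero, h0]
  have i0 : NeZero (p : Ω) := ⟨hcΩ⟩
  have i1 : NeZero p := ⟨hp.ne_zero⟩
  by_cases hp2 : p = 2
  · subst hp2
    obtain ⟨L1, j1, j2, hd⟩ : ∃ L1 : IntermediateField K Ω, FiniteDimensional K L1 ∧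
        Normal K L1 ∧ ∀ j : ℕ, (∀ x ∈ L1, (σ0 ^ j) x = x) → 4 ∣ j := by
      by_contra hcon
      push Not at hcon
      obtain ⟨c, hc, hc1⟩ := lm σ0 L0 h hcon
      exact hc1 (htor c hc)
    obtain ⟨i, hi⟩ := IsSepClosed.exists_pow_nat_eq (-1 : Ω) 2
    obtain ⟨m, L, k1, k2, hz, hL⟩ := Pck_step σ0 L1 (q := 4) hd i
    have hsq : ∀ j : ℕ, (σ0 ^ (m * 2)) ^ j = (σ0 ^ m) ^ (2 * j) := by
      intro j
      rw [← pow_mul, ← pow_mul, mul_assoc]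
    have hii : (σ0 ^ (m * 2)) i = i := by
      have e1 : ((σ0 ^ m) i) ^ 2 = i ^ 2 := by
        rw [← map_pow, hi, map_neg, map_one]
      have e2 : (σ0 ^ (m * 2)) i = (σ0 ^ m) ((σ0 ^ m) i) := by
        rw [pow_mul, pow_two, AlgEquiv.mul_apply]
      rcases sq_eq_sq_iff_eq_or_eq_neg.1 e1 with h | h
      · rw [e2, h, h]
      · rw [e2, h, map_neg, h, neg_neg]
    have h2Ω : (2 : Ω) ≠ 0 := by exact_mod_cast hcΩ
    have hpr : IsPrimitiveRoot (-1 : Ω) 2 := by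
      have i2 : Fact (Nat.Prime 2) := ⟨Nat.prime_two⟩
      have h5 : orderOf (-1 : Ω) = 2 := orderOf_eq_prime (by norm_num) (by
        intro h
        apply h2Ω
        linear_combination -h)
      have h6 := IsPrimitiveRoot.orderOf (-1 : Ω)
      rwa [h5] at h6
    refine ⟨m * 2, L, k1, k2, fun j => ?_, ⟨-1, ?_, ?_, hpr⟩, fun _ => ⟨i, hz, hii, hi⟩⟩
    · rw [hsq, hL]
      omega
    · exact neg_mem (one_mem L)
    · rw [map_neg, map_one]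
  · obtain ⟨ζ, hζ⟩ := HasEnoughRootsOfUnity.exists_primitiveRoot Ω p
    obtain ⟨m, L, k1, k2, hz, hL⟩ := Pck_step σ0 L0 h ζ
    exact ⟨m, L, k1, k2, hL, ⟨ζ, hz, Pck_zeta _ hp hζ ((hL p).2 dvd_rfl ζ hz), hζ⟩,
      fun h2 => absurd h2 hp2⟩

end Pool.Agent.H43.SW
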