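import Pool.Agent.H43.SW.Nr

/-!
Row Pm (MP_9924a2_SW, about 250 lines): the permutation module.  `T = U.normalCore` (normal in `G`, contained in `U`), `T' = (St U e).normalCore`.

PROOF.  Write `X = G ⧸ U` (finite).  For `t ∈ T`, `x ∈ X`: `x.out⁻¹ t x.out ∈ T ≤ U` fixes `φ e`, so `t` fixes `act x.out (φ e) = φ (act x.out e)` and `act t (act x.out e) = act x.out e + ι (χ t x)` for a unique `χ t x : ZMod p` (`ker`, `inj`).  `χ : T → (X → ZMod p)`, `χ (t t') = χ t + χ t'` (`fix`).
(1) `χ t = 0` iff `t ∈ T'`: `t ∈ T'` iff `g⁻¹ t g ∈ St U e` for all `g` iff (as `g⁻¹ t g ∈ T ≤ U`) `t` fixes `act g e` for all `g`; `g = x.out u`, `u ∈ U`, `act g e = act x.out (e + ι j) = act x.out e + ι j` for some `j`, and `t` fixes `ι j`.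
 (`T' ≤ T` since `St U e ≤ U`: `Subgroup.normalCore_mono`.)
(2) CLAIM: `χ` is surjective.  Then `T'.relIndex T = Nat.card (X → ZMod p) = p ^ (p ^ i)` (`Subgroup.index_ker`, `Nat.card_fun`/`Nat.card_pi`; `Nat.card X = U.index`), `T'.index = T'.relIndex T * T.index = p ^ (p ^ i) * p ^ s` (`Subgroup.relIndex_mul_index`).
(3) Proof of the claim.  Let `Ann = {f : X → ZMod p | ∀ t ∈ T, ∑ x, f x * χ t x = 0}`, a subspace.  If the range of `χ` (an additive subgroup, hence a `ZMod p`-subspace: `AddSubgroup.toZModSubmodule`) is not everything there is a nonzero linear form vanishing on it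
 (`Submodule.exists_le_ker_of_lt_top` or `Submodule.exists_dual_map_eq_bot_of_lt_top`), `v ↦ ∑ f x * v x`, so `Ann ≠ 0`.
 `G` acts on functions: `(g f) x = f (g⁻¹ • x)`; `Ann` is stable: `χ t (g • x) = χ (g⁻¹ t g) x` (`g * x.out = (g • x).out * u`; `act (g x.out) e = act ((g•x).out) e + ι j`, and `t g x.out e = g (g⁻¹ t g) x.out e = g (x.out e + ι (χ (g⁻¹tg) x))`), so
 `∑ x, f (g⁻¹ • x) * χ t x = ∑ y, f y * χ (g⁻¹ t g) y = 0`.
 The image `R` of `G` in `Equiv.Perm X` (`MulAction.toPermHom G X`) has kernel `T` (`MulAction.toPermHom`, `Subgroup.normalCore_eq_ker`), so `Nat.card R = T.index = p ^ s`: a `p`-group (`IsPGroup.of_card`).  It acts on the finite set `Ann` (`(ρ f) x = f (ρ⁻¹ x)`), `p ∣ Nat.card Ann` (a nonzero finite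
 `p`-group under addition, e.g. its cardinality is a power of `p` and `> 1`), `0` is fixed: `IsPGroup.exists_fixed_point_of_prime_dvd_card_of_fixed_point` gives `f ≠ 0` fixed; `G` is transitive on `X`: `f` is constant, `= c ≠ 0`.
 So `c * ∑ x, χ t x = 0`, `∑ x, χ t x = 0` for all `t ∈ T`.  Put `b = Nm U e = ∑ act x.out e`: `act t b = b + ι (∑ x, χ t x) = b`, `b ∈ Fx T`, and `φ b = Nm U (φ e)` (`nm_phi`): contradiction to `hN`.
-/

set_option autoImplicit false
set_option linter.unusedSectionVars false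
set_option linter.style.haveILetI false

namespace Pool.Agent.H43.SW

universe u v

variable {p : ℕ} [Fact p.Prime] {G : Type u} [Group G] {A : Type v} [AddCommGroup A] (D : KD p G A)
  {U : Subgroup G} [U.FiniteIndex] {e : A}

lemma Pm_act_mul (g h : G) (a : A) : D.act (g * h) a = D.act g (D.act h a) := by
  rw [map_mul]; rfl

lemma Pm_kappa (he : D.φ e ∈ D.Fx U) :
    ∃ κ : G → ZMod p, ∀ u ∈ U, D.act u e = e + D.ι (κ u) := by
  have h : ∀ u : G, ∃ j : ZMod p, u ∈ U → D.act u e = e + D.ι j := by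
    intro u
    by_cases hu : u ∈ U
    · have h1 : D.φ (D.act u e - e) = 0 := by
        rw [map_sub, D.comm, he u hu, sub_self]
      obtain ⟨j, hj⟩ := (D.ker _).1 h1
      exact ⟨j, fun _ => by rw [hj]; abel⟩
    · exact ⟨0, fun h => absurd h hu⟩
  choose κ hκ using h
  exact ⟨κ, hκ⟩

omit [U.FiniteIndex] in
lemma Pm_mem {t : G} (ht : t ∈ U.normalCore) (g : G) : g⁻¹ * t * g ∈ U := by
  have h1 : g⁻¹ * t * (g⁻¹)⁻¹ ∈ U := ht g⁻¹
  rwa [inv_inv] at h1

section kappa

variable {κ : G → ZMod p} (hκ : ∀ u ∈ U, D.act u e = e + D.ι (κ u))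

include hκ

lemma Pm_mul {u v : G} (hu : u ∈ U) (hv : v ∈ U) : κ (u * v) = κ u + κ v := by
  apply D.inj
  have h1 := hκ (u * v) (U.mul_mem hu hv)
  rw [Pm_act_mul, hκ v hv, map_add, hκ u hu, D.fix, add_assoc] at h1
  rw [map_add]
  exact (add_left_cancel h1).symm

lemma Pm_one : κ 1 = 0 := by
  have h1 := Pm_mul D hκ U.one_mem U.one_mem
  rw [mul_one] at h1
  simpa using h1

lemma Pm_conj {u w : G} (hu : u ∈ U) (hw : w ∈ U) : κ (u⁻¹ * w * u) = κ w := by
  rw [Pm_mul D hκ (U.mul_mem (U.inv_mem hu) hw) hu, Pm_mul D hκ (U.inv_mem hu) hw]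
  have h1 := Pm_mul D hκ (U.inv_mem hu) hu
  rw [inv_mul_cancel, Pm_one D hκ] at h1
  rw [add_right_comm, ← h1, zero_add]

lemma Pm_rep {t : G} (ht : t ∈ U.normalCore) {g : G} {x : G ⧸ U} (hx : (g : G ⧸ U) = x) :
    κ (g⁻¹ * t * g) = κ (x.out⁻¹ * t * x.out) := by
  have h1 : ((x.out : G) : G ⧸ U) = x := Quotient.out_eq' x
  have hu : x.out⁻¹ * g ∈ U := by
    rw [← QuotientGroup.eq, h1, hx]
  rw [← Pm_conj D hκ hu (Pm_mem ht x.out)]
  congr 1
  group

lemma Pm_kernel {t : G} (ht : t ∈ U.normalCore) :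
    t ∈ (D.St U e).normalCore ↔ ∀ x : G ⧸ U, κ (x.out⁻¹ * t * x.out) = 0 := by
  constructor
  · intro h x
    have h1 : x.out⁻¹ * t * x.out ∈ D.St U e := by
      have := h x.out⁻¹
      rwa [inv_inv] at this
    have h2 := hκ _ h1.1
    rw [h1.2] at h2
    apply D.inj
    rw [map_zero]
    exact (left_eq_add.mp h2)
  · intro h g
    have h0 : g * t * g⁻¹ ∈ U := ht g
    refine ⟨h0, ?_⟩
    have h1 := Pm_rep D hκ ht (g := g⁻¹) rfl
    rw [h, inv_inv] at h1
    rw [hκ _ h0, h1, map_zero, add_zero]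

lemma Pm_move {t : G} (ht : t ∈ U.normalCore) (x : G ⧸ U) :
    D.act t (D.act x.out e) = D.act x.out e + D.ι (κ (x.out⁻¹ * t * x.out)) := by
  rw [← Pm_act_mul]
  have : t * x.out = x.out * (x.out⁻¹ * t * x.out) := by group
  rw [this, Pm_act_mul, hκ _ (Pm_mem ht _), map_add, D.fix]

end kappa

/-- a proper subspace of functions is killed by a nonzero functional -/
lemma Pm_dual {X : Type*} [Fintype X] (W : Submodule (ZMod p) (X → ZMod p)) (hW : W ≠ ⊤) :
    ∃ f : X → ZMod p, f ≠ 0 ∧ ∀ v ∈ W, ∑ x, f x * v x = 0 := by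
  classical
  obtain ⟨l, hl, hWl⟩ := Submodule.exists_le_ker_of_lt_top W (lt_top_iff_ne_top.2 hW)
  refine ⟨fun x => l (Pi.single x 1), ?_, ?_⟩
  · intro h
    apply hl
    apply LinearMap.ext
    intro v
    rw [LinearMap.pi_apply_eq_sum_univ]
    simp only [LinearMap.zero_apply]
    refine Finset.sum_eq_zero fun x _ => ?_
    have := congrFun h x
    simp only [Pi.zero_apply] at this
    have e1 : (fun j => if x = j then (1 : ZMod p) else 0) = Pi.single x 1 := by
      ext j
      rw [Pi.single_apply]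
      by_cases hj : x = j
      · rw [if_pos hj, if_pos hj.symm]
      · rw [if_neg hj, if_neg (Ne.symm hj)]
    rw [e1, this, smul_zero]
  · intro v hv
    have h1 : l v = 0 := hWl hv
    rw [LinearMap.pi_apply_eq_sum_univ] at h1
    rw [← h1]
    refine Finset.sum_congr rfl fun x _ => ?_
    have e1 : (fun j => if x = j then (1 : ZMod p) else 0) = Pi.single x 1 := by
      ext j
      rw [Pi.single_apply]
      by_cases hj : x = j
      · rw [if_pos hj, if_pos hj.symm]
      · rw [if_neg hj, if_neg (Ne.symm hj)]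
    rw [e1, smul_eq_mul, mul_comm]

/-- a nonzero space of functions stable under a `p`-group acting transitively contains a nonzero
constant function -/
lemma Pm_fixed {X : Type u} [Fintype X] [MulAction G X] [MulAction.IsPretransitive G X]
    (hR : IsPGroup p (MulAction.toPermHom G X).range)
    (Ann : Submodule (ZMod p) (X → ZMod p)) (hne : Ann ≠ ⊥)
    (hst : ∀ (g : G), ∀ f ∈ Ann, (fun x => f (g • x)) ∈ Ann) :
    ∃ c : ZMod p, c ≠ 0 ∧ (fun _ => c) ∈ Ann := by
  classical
  let R := (MulAction.toPermHom G X).range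
  have hst' : ∀ (ρ : R) (f : Ann), (fun x => f.1 (((ρ⁻¹ : R) : Equiv.Perm X) x)) ∈ Ann := by
    intro ρ f
    obtain ⟨g, hg⟩ := (ρ⁻¹ : R).2
    have := hst g f.1 f.2
    rw [← hg]
    exact this
  letI : MulAction R Ann :=
    { smul := fun ρ f => ⟨fun x => f.1 (((ρ⁻¹ : R) : Equiv.Perm X) x), hst' ρ f⟩
      one_smul := by
        intro f
        apply Subtype.ext
        funext x
        change f.1 (((1⁻¹ : R) : Equiv.Perm X) x) = f.1 x
        rw [inv_one]
        rfl
      mul_smul := by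
        intro a b f
        apply Subtype.ext
        funext x
        change f.1 ((((a * b)⁻¹ : R) : Equiv.Perm X) x) =
          f.1 (((b⁻¹ : R) : Equiv.Perm X) (((a⁻¹ : R) : Equiv.Perm X) x))
        rw [mul_inv_rev]
        rfl }
  have hcard : p ∣ Nat.card Ann := by
    have hnt : Nontrivial Ann := Submodule.nontrivial_iff_ne_bot.2 hne
    rw [Module.natCard_eq_pow_finrank (K := ZMod p) (V := Ann), Nat.card_zmod]
    exact dvd_pow_self p (Module.finrank_pos (R := ZMod p) (M := Ann)).ne'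
  have h0 : (0 : Ann) ∈ MulAction.fixedPoints R Ann := by
    intro ρ
    apply Subtype.ext
    funext x
    rfl
  obtain ⟨f, hf, hf0⟩ := hR.exists_fixed_point_of_prime_dvd_card_of_fixed_point Ann hcard h0
  have hfix : ∀ (g : G) (x : X), f.1 (g • x) = f.1 x := by
    intro g x
    have h1 := hf (⟨MulAction.toPermHom G X g, ⟨g, rfl⟩⟩⁻¹ : R)
    have h2 := congrFun (congrArg Subtype.val h1) x
    change f.1 ((((⟨MulAction.toPermHom G X g, ⟨g, rfl⟩⟩⁻¹ : R)⁻¹ : R) : Equiv.Perm X) x) = f.1 x at h2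
    rw [inv_inv] at h2
    exact h2
  have hf1 : f.1 ≠ 0 := by
    intro h
    apply hf0
    apply Subtype.ext
    exact h.symm
  obtain ⟨x₀, hx₀⟩ := Function.ne_iff.1 hf1
  refine ⟨f.1 x₀, hx₀, ?_⟩
  have : (fun _ => f.1 x₀) = f.1 := by
    funext x
    obtain ⟨g, hg⟩ := MulAction.exists_smul_eq G x₀ x
    rw [← hg, hfix]
  rw [this]
  exact f.2

theorem pm_index (he : D.φ e ∈ D.Fx U) {i s : ℕ} (hU : U.index = p ^ i)
    (hT : U.normalCore.index = p ^ s)
    (hN : ∀ b ∈ D.Fx U.normalCore, D.φ b ≠ D.Nm U (D.φ e)) :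
    (D.St U e).normalCore.index = p ^ (s + p ^ i) := by
  classical
  letI : Fintype (G ⧸ U) := Fintype.ofFinite _
  obtain ⟨κ, hκ⟩ := Pm_kappa D he
  let χ : U.normalCore →* Multiplicative (G ⧸ U → ZMod p) :=
    { toFun := fun t => Multiplicative.ofAdd fun x => κ (x.out⁻¹ * t.1 * x.out)
      map_one' := by
        apply Multiplicative.toAdd.injective
        funext x
        change κ (x.out⁻¹ * 1 * x.out) = 0
        rw [mul_one, inv_mul_cancel, Pm_one D hκ]
      map_mul' := by
        intro a b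
        apply Multiplicative.toAdd.injective
        funext x
        change κ (x.out⁻¹ * (a.1 * b.1) * x.out) =
          κ (x.out⁻¹ * a.1 * x.out) + κ (x.out⁻¹ * b.1 * x.out)
        rw [← Pm_mul D hκ (Pm_mem a.2 _) (Pm_mem b.2 _)]
        congr 1
        group }
  have hχ : ∀ (t : U.normalCore) (x : G ⧸ U),
      (χ t).toAdd x = κ (x.out⁻¹ * t.1 * x.out) := fun _ _ => rfl
  have hker : χ.ker = (D.St U e).normalCore.subgroupOf U.normalCore := by
    ext t
    rw [MonoidHom.mem_ker, Subgroup.mem_subgroupOf, Pm_kernel D hκ t.2]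
    constructor
    · intro h x
      rw [← hχ, h]
      rfl
    · intro h
      apply Multiplicative.toAdd.injective
      funext x
      exact h x
  have hle : (D.St U e).normalCore ≤ U.normalCore :=
    Subgroup.normalCore_mono fun u hu => hu.1
  have hsurj : Function.Surjective χ := by
    by_contra hns
    let W : Submodule (ZMod p) (G ⧸ U → ZMod p) :=
      AddSubgroup.toZModSubmodule p (MonoidHom.toAdditiveLeft χ).range
    have hmemW : ∀ v, v ∈ W ↔ ∃ t : U.normalCore, (χ t).toAdd = v := by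
      intro v
      constructor
      · rintro ⟨t, ht⟩
        exact ⟨t.toMul, ht⟩
      · rintro ⟨t, ht⟩
        exact ⟨Additive.ofMul t, ht⟩
    have hW : W ≠ ⊤ := by
      intro h
      apply hns
      intro y
      have h1 : y.toAdd ∈ W := by rw [h]; exact Submodule.mem_top
      obtain ⟨t, ht⟩ := (hmemW _).1 h1
      exact ⟨t, Multiplicative.toAdd.injective ht⟩
    let Ann : Submodule (ZMod p) (G ⧸ U → ZMod p) :=
      { carrier := {f | ∀ t : U.normalCore, ∑ x, f x * (χ t).toAdd x = 0}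
        add_mem' := by
          intro a b ha hb t
          have e1 : ∑ x, (a + b) x * (χ t).toAdd x =
              ∑ x, a x * (χ t).toAdd x + ∑ x, b x * (χ t).toAdd x := by
            rw [← Finset.sum_add_distrib]
            exact Finset.sum_congr rfl fun x _ => by rw [Pi.add_apply, add_mul]
          rw [e1, ha t, hb t, add_zero]
        zero_mem' := by
          intro t
          simp
        smul_mem' := by
          intro c f hf t
          have e1 : ∑ x, (c • f) x * (χ t).toAdd x = c * ∑ x, f x * (χ t).toAdd x := by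
            rw [Finset.mul_sum]
            exact Finset.sum_congr rfl fun x _ => by rw [Pi.smul_apply, smul_eq_mul, mul_assoc]
          rw [e1, hf t, mul_zero] }
    have hAnn : Ann ≠ ⊥ := by
      obtain ⟨f, hf, hfW⟩ := Pm_dual W hW
      intro h
      apply hf
      have : f ∈ Ann := fun t => hfW _ ((hmemW _).2 ⟨t, rfl⟩)
      rw [h] at this
      exact (Submodule.mem_bot _).1 this
    have hst : ∀ (g : G), ∀ f ∈ Ann, (fun x => f (g • x)) ∈ Ann := by
      intro g f hf t
      have htn : g * t.1 * g⁻¹ ∈ U.normalCore :=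
        (Subgroup.normalCore_normal U).conj_mem t.1 t.2 g
      have h1 := hf ⟨g * t.1 * g⁻¹, htn⟩
      rw [← Equiv.sum_comp (MulAction.toPerm g)] at h1
      rw [← h1]
      refine Finset.sum_congr rfl fun x _ => ?_
      congr 1
      rw [hχ, hχ]
      change κ (x.out⁻¹ * t.1 * x.out) =
        κ ((g • x).out⁻¹ * (g * t.1 * g⁻¹) * (g • x).out)
      have h2 : ((g * x.out : G) : G ⧸ U) = g • x := by
        conv_rhs => rw [← Quotient.out_eq' x]
        rfl
      rw [← Pm_rep D hκ htn h2]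
      congr 1
      group
    have hR : IsPGroup p (MulAction.toPermHom G (G ⧸ U)).range := by
      apply IsPGroup.of_card (n := s)
      rw [← Subgroup.index_ker, ← Subgroup.normalCore_eq_ker, hT]
    obtain ⟨c, hc, hcA⟩ := Pm_fixed hR Ann hAnn hst
    have hsum : ∀ t : U.normalCore, ∑ x : G ⧸ U, κ (x.out⁻¹ * t.1 * x.out) = 0 := by
      intro t
      have h1 : ∑ x, c * (χ t).toAdd x = 0 := hcA t
      rw [← Finset.mul_sum] at h1
      exact (mul_eq_zero.1 h1).resolve_left hc
    refine hN (D.Nm U e) ?_ (nm_phi D e).symm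
    intro t ht
    rw [KD.Nm, finsum_eq_sum_of_fintype, map_sum]
    have h3 : ∑ x : G ⧸ U, D.act t (D.act x.out e) =
        ∑ x : G ⧸ U, (D.act x.out e + D.ι (κ (x.out⁻¹ * t * x.out))) :=
      Finset.sum_congr rfl fun x _ => Pm_move D hκ ht x
    rw [h3, Finset.sum_add_distrib, ← map_sum, hsum ⟨t, ht⟩, map_zero, add_zero]
  have hidx : (D.St U e).normalCore.relIndex U.normalCore = p ^ (p ^ i) := by
    rw [Subgroup.relIndex, ← hker, Subgroup.index_ker, MonoidHom.range_eq_top.2 hsurj,
      Subgroup.card_top]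
    have h1 : Nat.card (Multiplicative (G ⧸ U → ZMod p)) = Nat.card (G ⧸ U → ZMod p) :=
      Nat.card_congr Multiplicative.toAdd
    rw [h1, Nat.card_fun, Nat.card_zmod, ← hU]
    rfl
  rw [← Subgroup.relIndex_mul_index hle, hidx, hT, pow_add, mul_comm]

end Pool.Agent.H43.SW
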