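import Pool.Agent.H43.SG.Cnn
import Pool.Agent.H43.SG.Dfs

/-!
Row Sf (MP_9924a2_SW, about 200 lines): products of conjugates over a stable field.  `con_mul`, `cls_DL`: Pool/Agent/H43/SG/Cnn.lean; the definability is as in Pool/Agent/H43/SG/Dfs.lean (copy the auxiliary lemmas).

PROOF.
`sf_def`: `Q = ⨆ x, E.map (g x)`, a finite-dimensional subfield (`IntermediateField.finiteDimensional_iSup_of_finite`) that contains all `g x c`, `c ∈ E`.  `e` a basis of `E`, `q = Module.finBasis k Q`.  Call a map `G : (Fin n → k) → Q` polynomial if all `fun y => q.repr (G y) i` are `PolyFun` (products of polynomial maps are polynomial, linear maps are).  `y ↦ g x (e.equivFun.symm y)` is `k`-linear, so polynomial,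
 and so is the product over `x`.  The condition `∏ x, g x c = algebraMap (w ^ p)` is: for all `i`, `q.repr (∏ ...) i = w ^ p * q.repr 1 i`; existential quantifier over `w` (`Set.Definable.exists_of_finite`) with `w ≠ 0`, as in `dfs_norm`.
`sf_mul`: let `e = Module.finBasis k E`.  `H : Subgroup Eˣ` = the units `c` with `∏ x, g x c = algebraMap (w ^ p)` for some `w ≠ 0` in `k` (a subgroup: everything is multiplicative).  `{x : E | ∃ u ∈ H, (u : E) = x}` is the set of `sf_def`.  Suppose that the conclusion fails for `S`: for every `c ∈ E`, `c ≠ 0` there are `t ∈ S` and `w : k` with `∏ x, g x c = t * algebraMap (w ^ p)` (`w ≠ 0` as the product is not `0`).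
 Choose for each `t ∈ S`, if possible, a unit `c_t` with `∏ x, g x c_t = t * algebraMap (w ^ p)`, `w ≠ 0`; the finitely many `c_t` satisfy: for every unit `u` there is `c_t` with `c_t⁻¹ u ∈ H`.  `con_mul` gives `H = ⊤`, contradiction to `hgood`.
-/

set_option autoImplicit false

namespace Pool.Agent.H43.SW

open Pool.Agent.H7.ST Pool.Agent.H43.SG

universe u v

variable {k Ω : Type u} [Field k] [FirstOrder.Ring.CompatibleRing k] [Field Ω] [Algebra k Ω]

omit [FirstOrder.Ring.CompatibleRing k] in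
theorem Sf_prod {L : Type*} [Field L] [Algebra k L] {n m : ℕ} {M : Type*} [AddCommGroup M]
    [Module k M] (e : Module.Basis (Fin n) k M) (q : Module.Basis (Fin m) k L) {X : Type*}
    (T : X → M →ₗ[k] L) (s : Finset X) : ∀ i : Fin m,
    PolyFun (fun y : Fin n → k => q.repr (∏ x ∈ s, T x (e.equivFun.symm y)) i) := by
  classical
  have hlin : ∀ (f : M →ₗ[k] L) (i : Fin m),
      PolyFun (fun x : Fin n → k => q.repr (f (e.equivFun.symm x)) i) := by
    intro f i
    have h3 : (fun x : Fin n → k => q.repr (f (e.equivFun.symm x)) i) =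
        fun x => ∑ j, x j * q.repr (f (e j)) i := by
      funext x
      rw [Module.Basis.equivFun_symm_apply]
      simp only [map_sum, Finsupp.coe_finsetSum, Finset.sum_apply, map_smul,
        Finsupp.smul_apply, smul_eq_mul]
    rw [h3]
    exact PolyFun.sum _ fun j => (PolyFun.coord j).mul (PolyFun.const _)
  induction s using Finset.induction_on with
  | empty =>
    intro i
    simp only [Finset.prod_empty]
    exact PolyFun.const _
  | insert a s ha ih =>
    intro i
    simp only [Finset.prod_insert ha]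
    exact Dfs_mul q (fun j => hlin (T a) j) ih i

theorem sf_def (E : IntermediateField k Ω) [FiniteDimensional k E] {n : ℕ}
    (e : Module.Basis (Fin n) k E) {X : Type v} [Fintype X] (g : X → Ω ≃ₐ[k] Ω) (p : ℕ) :
    {c : E | ∃ w : k, w ≠ 0 ∧ ∏ x, g x (c : Ω) = algebraMap k Ω (w ^ p)} ∈ DL e := by
  classical
  obtain ⟨Q, hQ⟩ : ∃ Q : IntermediateField k Ω,
      Q = ⨆ x, E.map ((g x : Ω ≃ₐ[k] Ω) : Ω →ₐ[k] Ω) := ⟨_, rfl⟩
  have hfd : FiniteDimensional k Q := by
    rw [hQ]
    have : ∀ x, FiniteDimensional k (E.map ((g x : Ω ≃ₐ[k] Ω) : Ω →ₐ[k] Ω)) := fun x =>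
      inferInstance
    exact IntermediateField.finiteDimensional_iSup_of_finite
  have hmem : ∀ (x : X) (c : E), g x (c : Ω) ∈ Q := by
    intro x c
    rw [hQ]
    exact (le_iSup (fun x => E.map ((g x : Ω ≃ₐ[k] Ω) : Ω →ₐ[k] Ω)) x)
      ⟨(c : Ω), c.2, rfl⟩
  let q := Module.finBasis k Q
  let T : X → E →ₗ[k] Q := fun x =>
    { toFun := fun c => ⟨g x (c : Ω), hmem x c⟩
      map_add' := by
        intro a b
        apply Subtype.ext
        exact map_add (g x) (a : Ω) (b : Ω)
      map_smul' := by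
        intro r a
        apply Subtype.ext
        exact map_smul (g x) r (a : Ω) }
  have hT : ∀ (c : E) (w : k), ∏ x, g x (c : Ω) = algebraMap k Ω (w ^ p) ↔
      ∏ x, T x c = algebraMap k Q (w ^ p) := by
    intro c w
    have h1 : ((∏ x, T x c : Q) : Ω) = ∏ x, g x (c : Ω) := by
      rw [← IntermediateField.algebraMap_apply, map_prod]
      rfl
    rw [← h1]
    exact ⟨fun h => Subtype.ext h, fun h => congrArg Subtype.val h⟩
  have h0 : Dfn {z : Fin n ⊕ Unit → k | z (Sum.inr ()) = 0} :=
    Dfn.eq (PolyFun.coord _) (PolyFun.const 0)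
  have h1 : ∀ i, Dfn {z : Fin n ⊕ Unit → k |
      q.repr (∏ x, T x (e.equivFun.symm (fun j => z (Sum.inl j)))) i
        = z (Sum.inr ()) ^ p * q.repr 1 i} := by
    intro i
    apply Dfn.eq
    · exact (Sf_prod e q T Finset.univ i).comp
        (g := fun (z : Fin n ⊕ Unit → k) j => z (Sum.inl j)) fun j => PolyFun.coord _
    · exact (Dfs_pow _ p).mul (PolyFun.const _)
  have h2 := (Set.Definable.compl h0).inter (Set.definable_iInter_of_finite h1)
  have h3 := Set.Definable.exists_of_finite h2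
  have hk : ∀ (w : k) (y : Q), y = algebraMap k Q w ↔ ∀ i, q.repr y i = w * q.repr 1 i := by
    intro w y
    rw [Algebra.algebraMap_eq_smul_one]
    constructor
    · rintro rfl i
      rw [map_smul, Finsupp.smul_apply, smul_eq_mul]
    · intro h
      apply q.repr.injective
      ext i
      rw [h i, map_smul, Finsupp.smul_apply, smul_eq_mul]
  change Dfn _
  unfold Dfn
  convert h3 using 1
  ext x
  simp only [Set.mem_ofPred_eq, Set.mem_inter_iff, Set.mem_compl_iff, Set.mem_iInter,
    Sum.elim_inl, Sum.elim_inr, hT, hk]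
  constructor
  · rintro ⟨b, hb⟩
    exact ⟨fun _ => b, hb⟩
  · rintro ⟨u, hu⟩
    exact ⟨u (), hu⟩

theorem sf_mul [Infinite k] (hk : StableField k) (E : IntermediateField k Ω)
    [FiniteDimensional k E] {X : Type v} [Fintype X] (g : X → Ω ≃ₐ[k] Ω) (p : ℕ)
    (hgood : ∃ c ∈ E, c ≠ 0 ∧ ∀ w : k, ∏ x, g x c ≠ algebraMap k Ω (w ^ p)) (S : Finset Ω) :
    ∃ c ∈ E, c ≠ 0 ∧ ∀ t ∈ S, ∀ w : k, ∏ x, g x c ≠ t * algebraMap k Ω (w ^ p) := by
  classical
  have hXne : Nonempty X := by
    by_contra hE
    obtain ⟨c, -, -, h⟩ := hgood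
    rw [not_nonempty_iff] at hE
    apply h 1
    rw [one_pow, map_one, Finset.univ_eq_empty, Finset.prod_empty]
  by_contra hcon
  push Not at hcon
  have hne : ∀ u : Eˣ, ∏ x, g x ((u : E) : Ω) ≠ 0 := by
    intro u
    refine Finset.prod_ne_zero_iff.2 fun x _ => ?_
    rw [Ne, map_eq_zero_iff _ (g x).injective]
    intro h
    exact u.ne_zero (Subtype.ext h)
  have hfix : ∀ (u : Eˣ) (t : Ω) (w : k),
      ∏ x, g x ((u : E) : Ω) = t * algebraMap k Ω (w ^ p) →
      ∃ w' : k, w' ≠ 0 ∧ ∏ x, g x ((u : E) : Ω) = t * algebraMap k Ω (w' ^ p) := by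
    intro u t w h
    by_cases hp : p = 0
    · subst hp
      refine ⟨1, one_ne_zero, ?_⟩
      rw [h, pow_zero, pow_zero]
    · refine ⟨w, ?_, h⟩
      rintro rfl
      apply hne u
      rw [h, zero_pow hp, map_zero, mul_zero]
  let H : Subgroup Eˣ :=
    { carrier := {u | ∃ w : k, w ≠ 0 ∧ ∏ x, g x ((u : E) : Ω) = algebraMap k Ω (w ^ p)}
      mul_mem' := by
        rintro a b ⟨w, hw, h⟩ ⟨w', hw', h'⟩
        refine ⟨w * w', mul_ne_zero hw hw', ?_⟩
        have h1 : ∏ x, g x (((a * b : Eˣ) : E) : Ω) =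
            (∏ x, g x ((a : E) : Ω)) * ∏ x, g x ((b : E) : Ω) := by
          rw [← Finset.prod_mul_distrib]
          refine Finset.prod_congr rfl fun x _ => ?_
          rw [← map_mul]
          rfl
        rw [h1, h, h', ← map_mul, mul_pow]
      one_mem' := by
        refine ⟨1, one_ne_zero, ?_⟩
        rw [one_pow, map_one]
        refine Finset.prod_eq_one fun x _ => ?_
        exact map_one (g x)
      inv_mem' := by
        rintro a ⟨w, hw, h⟩
        refine ⟨w⁻¹, inv_ne_zero hw, ?_⟩
        have h1 : ∏ x, g x (((a⁻¹ : Eˣ) : E) : Ω) = (∏ x, g x ((a : E) : Ω))⁻¹ := by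
          rw [← Finset.prod_inv_distrib]
          refine Finset.prod_congr rfl fun x _ => ?_
          rw [Units.val_inv_eq_inv_val, ← map_inv₀]
          rfl
        rw [h1, h, inv_pow, map_inv₀] }
  have hHmem : ∀ u : Eˣ, u ∈ H ↔
      ∃ w : k, w ≠ 0 ∧ ∏ x, g x ((u : E) : Ω) = algebraMap k Ω (w ^ p) := fun u => Iff.rfl
  have hHD : {x : E | ∃ u ∈ H, (u : E) = x} ∈ DL (Module.finBasis k E) := by
    have h1 := sf_def E (Module.finBasis k E) g p
    have h2 : {x : E | ∃ u ∈ H, (u : E) = x} =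
        {c : E | ∃ w : k, w ≠ 0 ∧ ∏ x, g x (c : Ω) = algebraMap k Ω (w ^ p)} := by
      ext c
      constructor
      · rintro ⟨u, hu, rfl⟩
        exact hu
      · rintro ⟨w, hw, h⟩
        by_cases hX : c = 0
        · -- then the product is zero or empty
          subst hX
          by_cases hE : Nonempty X
          · exfalso
            obtain ⟨x0⟩ := hE
            have h3 : ∏ x, g x ((0 : E) : Ω) = 0 := by
              refine Finset.prod_eq_zero (Finset.mem_univ x0) ?_
              exact map_zero (g x0)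
            rw [h3] at h
            have h4 : w ^ p = 0 := by
              apply (algebraMap k Ω).injective
              rw [← h, map_zero]
            exact pow_ne_zero p hw h4
          · exact absurd hXne hE
        · exact ⟨Units.mk0 c hX, ⟨w, hw, h⟩, rfl⟩
    rw [h2]
    exact h1
  let R : Ω → Eˣ → Prop := fun t u => ∃ w : k,
    ∏ x, g x ((u : E) : Ω) = t * algebraMap k Ω (w ^ p)
  let c : Ω → Eˣ := fun t => if h : ∃ u, R t u then h.choose else 1
  have hc : ∀ t u, R t u → R t (c t) := by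
    intro t u h
    have h' : ∃ u, R t u := ⟨u, h⟩
    have h1 : c t = h'.choose := dif_pos h'
    rw [h1]
    exact h'.choose_spec
  have htop : H = ⊤ := by
    refine con_mul hk (Module.finBasis k E) H hHD (S.image c) fun u => ?_
    obtain ⟨t, ht, w, hw⟩ := hcon ((u : E) : Ω) (u : E).2
      (fun h => u.ne_zero (Subtype.ext h))
    refine ⟨c t, Finset.mem_image_of_mem c ht, ?_⟩
    obtain ⟨w', hw'⟩ := hc t u ⟨w, hw⟩
    obtain ⟨a, ha, hua⟩ := hfix u t w hw
    obtain ⟨b, hb, hub⟩ := hfix (c t) t w' hw'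
    rw [hHmem]
    refine ⟨b⁻¹ * a, mul_ne_zero (inv_ne_zero hb) ha, ?_⟩
    have h1 : ∏ x, g x ((((c t)⁻¹ * u : Eˣ) : E) : Ω) =
        (∏ x, g x ((c t : E) : Ω))⁻¹ * ∏ x, g x ((u : E) : Ω) := by
      rw [← Finset.prod_inv_distrib, ← Finset.prod_mul_distrib]
      refine Finset.prod_congr rfl fun x _ => ?_
      rw [← map_inv₀, ← map_mul, Units.val_mul, Units.val_inv_eq_inv_val]
      rfl
    have ht0 : t ≠ 0 := by
      rintro rfl
      apply hne u
      rw [hua, zero_mul]
    rw [h1, hua, hub, mul_inv, mul_pow, inv_pow, map_mul, map_inv₀]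
    have h5 : algebraMap k Ω (b ^ p) ≠ 0 := by
      rw [Ne, map_eq_zero_iff _ (algebraMap k Ω).injective]
      exact pow_ne_zero p hb
    field_simp
  obtain ⟨d, hdE, hd0, hd⟩ := hgood
  have hd1 : (⟨d, hdE⟩ : E) ≠ 0 := fun h => hd0 (congrArg Subtype.val h)
  have h6 : Units.mk0 (⟨d, hdE⟩ : E) hd1 ∈ H := by
    rw [htop]
    exact Subgroup.mem_top _
  obtain ⟨w, -, hw⟩ := h6
  exact hd w hw

end Pool.Agent.H43.SW
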