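import Pool.Agent.H43.SW.Cy
import Pool.Agent.H43.SW.Pm
import Pool.Agent.H43.SW.Cf
import Pool.Agent.H43.SW.Ki
import Pool.Agent.H43.SW.Kj
import Pool.Agent.H43.SW.Bs
import Pool.Agent.H43.SW.Sf

/-! The tower of Kummer extensions (MP_9924a2_lc). -/

set_option autoImplicit false

namespace Pool.Agent.H43.SW

open Pool.Agent.H7.ST

universe u v

theorem Tw_mono {p : ℕ} {G : Type u} [Group G] {A : Type v} [AddCommGroup A] (D : KD p G A)
    {U : Subgroup G} {b : A} (hb : b ∈ D.Fx ⊤) : b ∈ D.Fx U :=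
  fun u _ => hb u (Subgroup.mem_top u)

theorem tw {k Ω : Type u} [Field k] [FirstOrder.Ring.CompatibleRing k] [Infinite k] [Field Ω]
    [Algebra k Ω] [IsGalois k Ω] [IsSepClosed Ω] (hk : StableField k) {p : ℕ} (hp : p.Prime)
    (hpk : (p : k) ≠ 0) {ζ : k} (hζ : IsPrimitiveRoot ζ p) (hi : p = 2 → ∃ i : k, i ^ 2 = -1)
    (E1 : IntermediateField k Ω) [FiniteDimensional k E1] [Normal k E1]
    (hE1 : Module.finrank k E1 = p) (m : ℕ) :
    ∃ E : IntermediateField k Ω, E1 ≤ E ∧ FiniteDimensional k E ∧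
      E.fixingSubgroup.index = p ^ (m + 1) ∧
      E.fixingSubgroup.normalCore.index = p ^ (∑ i ∈ Finset.range (m + 1), p ^ i) := by
  classical
  have : Fact p.Prime := ⟨hp⟩
  obtain ⟨D, hact, hφ⟩ := ki (Ω := Ω) hp hpk hζ
  have hφ' : ∀ a : Additive Ωˣ, ((D.φ a).toMul : Ω) = (a.toMul : Ω) ^ p := by
    intro a
    rw [hφ, toMul_nsmul, Units.val_pow_eq_pow_val]
  suffices h : ∃ E : IntermediateField k Ω, E1 ≤ E ∧ FiniteDimensional k E ∧
      E.fixingSubgroup.index = p ^ (m + 1) ∧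
      E.fixingSubgroup.normalCore.index = p ^ (∑ i ∈ Finset.range (m + 1), p ^ i) ∧
      ∃ a ∈ D.Fx E.fixingSubgroup, ∀ b ∈ D.Fx ⊤, D.φ b ≠ D.Nm E.fixingSubgroup a by
    obtain ⟨E, h1, h2, h3, h4, _⟩ := h
    exact ⟨E, h1, h2, h3, h4⟩
  induction m with
  | zero =>
    obtain ⟨hf1, hi1⟩ := kj_index E1
    refine ⟨E1, le_rfl, inferInstance, ?_, ?_, ?_⟩
    · rw [hi1, hE1, zero_add, pow_one]
    · have hgal : IsGalois k E1 := { }
      have hn : E1.fixingSubgroup.Normal := inferInstance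
      rw [Subgroup.normalCore_eq_self, hi1, hE1]
      simp
    · have := Fintype.ofFinite ((Ω ≃ₐ[k] Ω) ⧸ E1.fixingSubgroup)
      obtain ⟨c, hc, hc0, hcn⟩ := bs hp hpk hζ hi E1 hE1
      refine ⟨Additive.ofMul (Units.mk0 c hc0), (kj_mem D hact E1 _).2 hc, ?_⟩
      intro b hb hbe
      obtain ⟨w, hw⟩ := (kj_top D hact b).1 hb
      apply hcn w
      have h1 := kj_nm D hact E1.fixingSubgroup (Additive.ofMul (Units.mk0 c hc0))
      rw [← hbe, hφ'] at h1
      rw [map_pow, hw, h1]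
      rfl
  | succ m ih =>
    obtain ⟨E, hE, hfd, hidx, hcore, a, ha, hgood⟩ := ih
    obtain ⟨hf, hfi⟩ := kj_index E
    have := Fintype.ofFinite ((Ω ≃ₐ[k] Ω) ⧸ E.fixingSubgroup)
    obtain ⟨S, hS⟩ := cf_classes D E.fixingSubgroup.normalCore
    have key : ∃ c ∈ D.Fx E.fixingSubgroup,
        ∀ b ∈ D.Fx E.fixingSubgroup.normalCore, D.φ b ≠ D.Nm E.fixingSubgroup c := by
      obtain ⟨c, hcE, hc0, hc⟩ := sf_mul hk E
        (fun x : (Ω ≃ₐ[k] Ω) ⧸ E.fixingSubgroup => x.out) p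
        (by
          refine ⟨(a.toMul : Ω), (kj_mem D hact E a).1 ha, Units.ne_zero _, fun w hw => ?_⟩
          rw [← kj_nm D hact E.fixingSubgroup a] at hw
          have hw0 : w ≠ 0 := by
            rintro rfl
            rw [zero_pow hp.ne_zero, map_zero] at hw
            exact Units.ne_zero _ hw
          have hw0' : algebraMap k Ω w ≠ 0 := (map_ne_zero _).2 hw0
          apply hgood (Additive.ofMul (Units.mk0 (algebraMap k Ω w) hw0'))
            ((kj_top D hact _).2 ⟨w, rfl⟩)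
          apply Additive.toMul.injective
          apply Units.ext
          rw [hφ', hw, map_pow]
          rfl) (S.image fun s => (s.toMul : Ω))
      refine ⟨Additive.ofMul (Units.mk0 c hc0), (kj_mem D hact E _).2 hcE, ?_⟩
      intro b hb hbe
      obtain ⟨t, ht, b', hb', hbt⟩ := hS _
        (nm_mem D ((kj_mem D hact E (Additive.ofMul (Units.mk0 c hc0))).2 hcE)) ⟨b, hb, hbe⟩
      obtain ⟨w, hw⟩ := (kj_top D hact b').1 hb'
      apply hc _ (Finset.mem_image_of_mem _ ht) w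
      have h1 := kj_nm D hact E.fixingSubgroup (Additive.ofMul (Units.mk0 c hc0))
      rw [hbt, toMul_add, Units.val_mul, hφ', ← hw, ← map_pow] at h1
      rw [h1]
      rfl
    obtain ⟨c, hc, hcn⟩ := key
    obtain ⟨e, he⟩ := D.surj c
    have heF : D.φ e ∈ D.Fx E.fixingSubgroup := by
      rw [he]
      exact hc
    have hen : e ∉ D.Fx E.fixingSubgroup := by
      intro h
      apply hcn (D.Nm E.fixingSubgroup e) (Tw_mono D (nm_mem D h))
      rw [← nm_phi, he]
    have hN : ∀ b ∈ D.Fx E.fixingSubgroup.normalCore,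
        D.φ b ≠ D.Nm E.fixingSubgroup (D.φ e) := by
      rw [he]
      exact hcn
    have hint : IsIntegral k (e.toMul : Ω) := Algebra.IsIntegral.isIntegral _
    have : FiniteDimensional k (IntermediateField.adjoin k {(e.toMul : Ω)}) :=
      IntermediateField.adjoin.finiteDimensional hint
    refine ⟨E ⊔ IntermediateField.adjoin k {(e.toMul : Ω)}, hE.trans le_sup_left, inferInstance,
      ?_, ?_, ?_⟩
    · rw [← kj_st D hact E e, st_index D heF hen, hidx, ← pow_succ]
    · rw [← kj_st D hact E e, pm_index D heF hidx hcore hN, ← Finset.sum_range_succ]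
    · rw [← kj_st D hact E e]
      refine ⟨e, fun u hu => hu.2, fun b hb => ?_⟩
      rw [st_nm_mul D hφ heF hen (by rw [hidx, pow_succ]; exact dvd_mul_left _ _)]
      exact hN b (Tw_mono D hb)

end Pool.Agent.H43.SW
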