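import Pool.Agent.H43.SG.Tor
import Pool.Agent.H43.SW.Tw
import Pool.Agent.H43.SW.Gp
import Pool.Agent.H43.SW.Gq
import Pool.Agent.H43.SW.Ex
import Pool.Agent.H43.SW.Pk
import Pool.Agent.H43.SW.Dv
import Pool.Agent.H43.SW.Kf

/-! Iterated wreath products as Galois groups (MP_9924a2_lc): assembly. -/

set_option autoImplicit false

namespace Pool.Agent.H43.SW

open Pool.Agent.H7.ST Pool.Agent.H43.SG

universe u v w

theorem Mn_fix {M Ω : Type u} [Field M] [Field Ω] [Algebra M Ω] (S : Set Ω) (γ : Ω ≃ₐ[M] Ω) :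
    γ ∈ (IntermediateField.adjoin M S).fixingSubgroup ↔ ∀ x ∈ S, γ x = x := by
  rw [IntermediateField.mem_fixingSubgroup_iff]
  constructor
  · intro h x hx
    exact h x (IntermediateField.subset_adjoin M S hx)
  · intro h x hx
    induction hx using IntermediateField.adjoin_induction with
    | mem x hx => exact h x hx
    | algebraMap x => exact γ.commutes x
    | add x y _ _ hx hy => rw [map_add, hx, hy]
    | inv x _ hx => rw [map_inv₀, hx]
    | mul x y _ _ hx hy => rw [map_mul, hx, hy]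

theorem Mn_fd {K M Ω : Type u} [Field K] [Field M] [Field Ω] [Algebra K M] [Algebra M Ω]
    [Algebra K Ω] [IsScalarTower K M Ω] [IsGalois K Ω] [IsGalois M Ω] (L : IntermediateField K Ω)
    [FiniteDimensional K L] : FiniteDimensional M (IntermediateField.adjoin M (L : Set Ω)) := by
  obtain ⟨θ, hθ⟩ := Field.exists_primitive_element K L
  have h1 : L ≤ IntermediateField.adjoin K {(θ : Ω)} := by
    intro x hx
    have h2 : (⟨x, hx⟩ : L) ∈ IntermediateField.adjoin K ({θ} : Set L) := by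
      rw [hθ]
      exact IntermediateField.mem_top
    have h3 : L.val ⟨x, hx⟩ ∈ (IntermediateField.adjoin K ({θ} : Set L)).map L.val :=
      ⟨_, h2, rfl⟩
    rw [IntermediateField.adjoin_map, Set.image_singleton] at h3
    exact h3
  have h2 : IntermediateField.adjoin M (L : Set Ω) ≤ IntermediateField.adjoin M {(θ : Ω)} := by
    rw [IntermediateField.adjoin_le_iff]
    intro x hx
    have h3 : IntermediateField.adjoin K {(θ : Ω)} ≤
        (IntermediateField.adjoin M {(θ : Ω)}).restrictScalars K := by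
      rw [IntermediateField.adjoin_le_iff]
      intro y hy
      exact IntermediateField.subset_adjoin M _ hy
    exact h3 (h1 hx)
  have h3 : FiniteDimensional M (IntermediateField.adjoin M {(θ : Ω)}) :=
    IntermediateField.adjoin.finiteDimensional (Algebra.IsIntegral.isIntegral _)
  exact FiniteDimensional.of_injective (IntermediateField.inclusion h2).toLinearMap
    (IntermediateField.inclusion h2).injective

/-- the part over a fixed finite extension `k0` of `K` -/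
theorem Mn_part {K M Ω : Type u} [Field K] [Field M] [Field Ω] [Algebra K M] [Algebra M Ω]
    [Algebra K Ω] [IsScalarTower K M Ω] [IsGalois K M] [IsGalois K Ω] [IsGalois M Ω]
    {p : ℕ} [Fact p.Prime] (L k0 : IntermediateField K Ω) [FiniteDimensional K L]
    (L1 : IntermediateField k0 Ω) (hL1 : ∀ x : Ω, x ∈ L1 ↔ x ∈ L) (hk0 : k0 ≤ L)
    [FiniteDimensional K k0] [Normal k0 L1] [FiniteDimensional k0 L1]
    (hp1 : Module.finrank k0 L1 = p) (σM : Ω ≃ₐ[M] Ω) (hσ : ∀ x ∈ k0, σM x = x)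
    (hσ' : ¬ ∀ x ∈ L, σM x = x) {m : ℕ} (P : Sylow p (Equiv.Perm (Fin (p ^ m))))
    (E : IntermediateField k0 Ω) (hE : L1 ≤ E) [FiniteDimensional k0 E]
    (hidx : E.fixingSubgroup.index = p ^ (m + 1))
    (hcore : E.fixingSubgroup.normalCore.index = p ^ (∑ i ∈ Finset.range (m + 1), p ^ i))
    [FiniteDimensional M (IntermediateField.adjoin M (L : Set Ω))] :
    ∃ (E' : Type u) (_ : Field E') (_ : Algebra (IntermediateField.adjoin M (L : Set Ω)) E'),
      FiniteDimensional (IntermediateField.adjoin M (L : Set Ω)) E' ∧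
      IsGalois (IntermediateField.adjoin M (L : Set Ω)) E' ∧
      Nonempty ((E' ≃ₐ[IntermediateField.adjoin M (L : Set Ω)] E') ≃* P) := by
  have hgal : IsGalois k0 L1 := { }
  have hn : L1.fixingSubgroup.Normal := inferInstance
  obtain ⟨hf1, hi1⟩ := kj_index L1
  have hidx1 : L1.fixingSubgroup.index = p := by rw [hi1, hp1]
  have hU : E.fixingSubgroup ≤ L1.fixingSubgroup := IntermediateField.fixingSubgroup_antitone hE
  -- `σ` as an element of the group
  let σ : Ω ≃ₐ[k0] Ω := AlgEquiv.ofRingEquiv (f := σM.toRingEquiv) (fun x => hσ _ x.2)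
  have hσσ : ∀ x, σ x = σM x := fun x => rfl
  have hσ1 : σ ∉ L1.fixingSubgroup := by
    intro h
    apply hσ'
    intro x hx
    exact (IntermediateField.mem_fixingSubgroup_iff _ _).1 h x ((hL1 x).2 hx)
  obtain ⟨hk, hb⟩ := ga_index hidx1 hU hidx hcore hσ1
  have hi : E.fixingSubgroup.relIndex L1.fixingSubgroup = p ^ m := by
    have h := Subgroup.relIndex_mul_index hU
    rw [hidx1, hidx, pow_succ] at h
    exact Nat.eq_of_mul_eq_mul_right (Fact.out (p := p.Prime)).pos h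
  obtain ⟨π, hπ, hπk⟩ := gp_perm hU hi hk P
  -- the restriction
  have hk0F : ∀ γ : (IntermediateField.adjoin M (L : Set Ω)).fixingSubgroup, ∀ x : k0,
      (γ : Ω ≃ₐ[M] Ω) (algebraMap k0 Ω x) = algebraMap k0 Ω x := by
    intro γ x
    exact (Mn_fix _ _).1 γ.2 _ (hk0 x.2)
  let r0 : (IntermediateField.adjoin M (L : Set Ω)).fixingSubgroup → (Ω ≃ₐ[k0] Ω) := fun γ =>
    AlgEquiv.ofRingEquiv (f := (γ : Ω ≃ₐ[M] Ω).toRingEquiv) (hk0F γ)
  have hr0 : ∀ γ x, r0 γ x = (γ : Ω ≃ₐ[M] Ω) x := fun γ x => rfl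
  let r : (IntermediateField.adjoin M (L : Set Ω)).fixingSubgroup →* L1.fixingSubgroup :=
    { toFun := fun γ => ⟨r0 γ, by
        rw [IntermediateField.mem_fixingSubgroup_iff]
        intro x hx
        exact (Mn_fix _ _).1 γ.2 _ ((hL1 x).1 hx)⟩
      map_one' := rfl
      map_mul' := fun _ _ => rfl }
  have hr : ∀ γ x, ((r γ : L1.fixingSubgroup) : Ω ≃ₐ[k0] Ω) x = (γ : Ω ≃ₐ[M] Ω) x :=
    fun γ x => rfl
  -- automorphisms preserve `M`
  have hMM : ∀ (g : Ω ≃ₐ[k0] Ω) (y : M), ∃ z : M, g (algebraMap M Ω y) = algebraMap M Ω z := by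
    intro g y
    have h := AlgEquiv.restrictNormal_commutes (g.restrictScalars K) M y
    exact ⟨_, h.symm⟩
  have hsurj : Function.Surjective (π.comp r) := by
    intro y
    obtain ⟨b, rfl⟩ := hπ y
    obtain ⟨τ, hτ, h1, h2⟩ := hb b b.2
    have h3 : σ * τ⁻¹ * σ⁻¹ ∈ KK L1.fixingSubgroup E.fixingSubgroup := by
      have := (KK L1.fixingSubgroup E.fixingSubgroup).inv_mem h1
      rwa [show (σ * τ * σ⁻¹)⁻¹ = σ * τ⁻¹ * σ⁻¹ by group] at this
    have hρ1 : τ * (σ * τ⁻¹ * σ⁻¹) ∈ L1.fixingSubgroup := mul_mem hτ h3.1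
    have hρM : ∀ y : M, (τ * (σ * τ⁻¹ * σ⁻¹)) (algebraMap M Ω y) = algebraMap M Ω y := by
      intro y
      have e1 : σ⁻¹ (algebraMap M Ω y) = algebraMap M Ω y := by
        have : σ (algebraMap M Ω y) = algebraMap M Ω y := σM.commutes y
        conv_lhs => rw [← this]
        rw [← AlgEquiv.mul_apply, inv_mul_cancel, AlgEquiv.one_apply]
      obtain ⟨z, hz⟩ := hMM τ⁻¹ y
      have e2 : σ (algebraMap M Ω z) = algebraMap M Ω z := σM.commutes z
      rw [AlgEquiv.mul_apply, AlgEquiv.mul_apply, AlgEquiv.mul_apply, e1, hz, e2, ← hz,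
        ← AlgEquiv.mul_apply, mul_inv_cancel, AlgEquiv.one_apply]
    let γ : Ω ≃ₐ[M] Ω :=
      AlgEquiv.ofRingEquiv (f := (τ * (σ * τ⁻¹ * σ⁻¹)).toRingEquiv) hρM
    have hγ : γ ∈ (IntermediateField.adjoin M (L : Set Ω)).fixingSubgroup := by
      rw [Mn_fix]
      intro x hx
      exact (IntermediateField.mem_fixingSubgroup_iff _ _).1 hρ1 x ((hL1 x).2 hx)
    refine ⟨⟨γ, hγ⟩, ?_⟩
    have h4 : r ⟨γ, hγ⟩ = ⟨τ * (σ * τ⁻¹ * σ⁻¹), hρ1⟩ := rfl
    rw [MonoidHom.comp_apply, h4]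
    have h5 : (⟨τ * (σ * τ⁻¹ * σ⁻¹), hρ1⟩ : L1.fixingSubgroup)
        = b * (b⁻¹ * ⟨τ * (σ * τ⁻¹ * σ⁻¹), hρ1⟩) := by rw [mul_inv_cancel_left]
    rw [h5, map_mul]
    have h6 : π (b⁻¹ * ⟨τ * (σ * τ⁻¹ * σ⁻¹), hρ1⟩) = 1 := by
      rw [hπk]
      have h7 : ((b⁻¹ * ⟨τ * (σ * τ⁻¹ * σ⁻¹), hρ1⟩ : L1.fixingSubgroup) : Ω ≃ₐ[k0] Ω)
          = ((b : Ω ≃ₐ[k0] Ω)⁻¹ * τ) * (σ * τ⁻¹ * σ⁻¹) :=
        (mul_assoc ((b : Ω ≃ₐ[k0] Ω)⁻¹) τ (σ * τ⁻¹ * σ⁻¹)).symm
      rw [h7]
      exact mul_mem h2 h3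
    rw [h6, mul_one]
  -- a large normal extension
  have hEK : FiniteDimensional K (E.restrictScalars K) := by
    have h1 : FiniteDimensional K E := FiniteDimensional.trans K k0 E
    exact h1
  obtain ⟨θ, hθ⟩ := Field.exists_primitive_element K (E.restrictScalars K)
  obtain ⟨A, hA1, hA2, -, hA3⟩ := Pck_big (⊥ : IntermediateField K Ω) (θ : Ω)
  have hEA : ∀ x ∈ E, x ∈ A := by
    intro x hx
    have h2 : (⟨x, hx⟩ : E.restrictScalars K) ∈
        IntermediateField.adjoin K ({θ} : Set (E.restrictScalars K)) := by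
      rw [hθ]
      exact IntermediateField.mem_top
    have h3 : (E.restrictScalars K).val ⟨x, hx⟩ ∈
        (IntermediateField.adjoin K ({θ} : Set (E.restrictScalars K))).map
          (E.restrictScalars K).val := ⟨_, h2, rfl⟩
    rw [IntermediateField.adjoin_map, Set.image_singleton] at h3
    have h4 : IntermediateField.adjoin K {((E.restrictScalars K).val θ : Ω)} ≤ A := by
      rw [IntermediateField.adjoin_le_iff, Set.singleton_subset_iff]
      exact hA3
    exact h4 h3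
  have hAA : ∀ (g : Ω ≃ₐ[k0] Ω), ∀ x ∈ A, g x ∈ A := by
    intro g x hx
    have h := AlgEquiv.restrictNormal_commutes (g.restrictScalars K) A ⟨x, hx⟩
    have h2 : g x = algebraMap A Ω ((g.restrictScalars K).restrictNormal A ⟨x, hx⟩) := h.symm
    rw [h2]
    exact ((g.restrictScalars K).restrictNormal A ⟨x, hx⟩).2
  have hQfd : FiniteDimensional M (IntermediateField.adjoin M (A : Set Ω)) := Mn_fd (K := K) A
  refine ex_one (IntermediateField.adjoin M (L : Set Ω)) (π.comp r) hsurj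
    (IntermediateField.adjoin M (A : Set Ω)) ?_ ?_
  · rw [IntermediateField.adjoin_le_iff]
    intro x hx
    exact IntermediateField.subset_adjoin M _ (hEA x (hE ((hL1 x).2 hx)))
  · intro γ hγ
    rw [Mn_fix] at hγ
    rw [MonoidHom.comp_apply, hπk]
    refine ⟨(r γ).2, fun h hh => ?_⟩
    rw [IntermediateField.mem_fixingSubgroup_iff]
    intro x hx
    rw [AlgEquiv.mul_apply, AlgEquiv.mul_apply, hr, hγ _ (hAA _ _ (hEA x hx)),
      ← AlgEquiv.mul_apply, mul_inv_cancel, AlgEquiv.one_apply]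

theorem mn_core {K M Ω : Type u} [Field K] [FirstOrder.Ring.CompatibleRing K] [Infinite K]
    [Field M] [Field Ω] [Algebra K M] [Algebra M Ω]
    [Algebra K Ω] [IsScalarTower K M Ω] [IsGalois K M] [IsGalois K Ω] [IsGalois M Ω]
    [IsSepClosed Ω] (hK : StableField K) {p : ℕ} (hp : p.Prime) (hpK : (p : K) ≠ 0)
    (E : IntermediateField M Ω) [FiniteDimensional M E] (hE : p ∣ Module.finrank M E) :
    ∃ F : IntermediateField M Ω, FiniteDimensional M F ∧
      ∀ (m : ℕ) (P : Sylow p (Equiv.Perm (Fin (p ^ m)))),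
        ∃ (E' : Type u) (_ : Field E') (_ : Algebra F E'), FiniteDimensional F E' ∧
          IsGalois F E' ∧ Nonempty ((E' ≃ₐ[F] E') ≃* P) := by
  have : Fact p.Prime := ⟨hp⟩
  have htor : ∀ c : Ω ≃ₐ[K] Ω, c ^ 2 = 1 → c = 1 := by
    intro c hc
    ext x
    refine tor_two hK c (fun x => ?_) x
    have := DFunLike.congr_fun hc x
    rw [pow_two] at this
    exact this
  obtain ⟨σM, L0, i1, i2, h1⟩ := dv (K := K) hp E hE
  have hres : ∀ (j : ℕ) (x : Ω), ((σM.restrictScalars K) ^ j) x = (σM ^ j) x := by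
    intro j
    induction j with
    | zero => intro x; rfl
    | succ j ih =>
      intro x
      rw [pow_succ, pow_succ, AlgEquiv.mul_apply, AlgEquiv.mul_apply, ih]
      rfl
  obtain ⟨n, L, j1, j2, hord, ⟨ζ, hζL, hζσ, hζ⟩, hi⟩ := pk htor hp hpK (σM.restrictScalars K) L0
    (fun j hj => h1 j fun x hx => by rw [← hres]; exact hj x hx)
  obtain ⟨k0, L1, hk0, l1, hL1, l2, l3, l4⟩ := kf L (σM.restrictScalars K ^ n) hp hord
  have hk0L : k0 ≤ L := fun x hx => ((hk0 x).1 hx).1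
  letI : FirstOrder.Ring.CompatibleRing k0 := FirstOrder.Ring.compatibleRingOfRing k0
  have hinf : Infinite k0 := Infinite.of_injective (algebraMap K k0) (algebraMap K k0).injective
  have hst : StableField k0 := stable_finite hK
  have hpk : (p : k0) ≠ 0 := by
    intro h0
    apply hpK
    apply (algebraMap K k0).injective
    rw [map_natCast, map_zero, h0]
  have hζ' : IsPrimitiveRoot (⟨ζ, (hk0 ζ).2 ⟨hζL, hζσ⟩⟩ : k0) p :=
    IsPrimitiveRoot.of_map_of_injective (f := algebraMap k0 Ω) hζ (algebraMap k0 Ω).injective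
  have hi' : p = 2 → ∃ i : k0, i ^ 2 = -1 := by
    intro h2
    obtain ⟨i, hiL, hi1, hi2⟩ := hi h2
    exact ⟨⟨i, (hk0 i).2 ⟨hiL, hi1⟩⟩, Subtype.ext hi2⟩
  have hfd : FiniteDimensional M (IntermediateField.adjoin M (L : Set Ω)) := Mn_fd (K := K) L
  refine ⟨IntermediateField.adjoin M (L : Set Ω), hfd, fun m P => ?_⟩
  obtain ⟨E2, hE2, m1, m2, m3⟩ := tw hst hp hpk hζ' hi' L1 l4 m
  refine Mn_part L k0 L1 hL1 hk0L l4 (σM ^ n) ?_ ?_ P E2 hE2 m2 m3
  · intro x hx
    rw [← hres]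
    exact ((hk0 x).1 hx).2
  · intro h
    have h2 : p ∣ 1 := by
      rw [← hord 1]
      intro x hx
      rw [pow_one, hres]
      exact h x hx
    exact hp.one_lt.ne' (Nat.dvd_one.1 h2)

theorem sw_main {K : Type u} [Field K] [FirstOrder.Ring.CompatibleRing K] [Infinite K]
    (hK : StableField K) (M : Type u) [Field M] [Algebra K M] [IsGalois K M] {p : ℕ}
    (hp : p.Prime) (hpK : (p : K) ≠ 0) (E0 : Type v) [Field E0] [Algebra M E0]
    [FiniteDimensional M E0] [Algebra.IsSeparable M E0] (hE0 : p ∣ Module.finrank M E0) :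
    ∃ (F : Type u) (_ : Field F) (_ : Algebra M F), FiniteDimensional M F ∧
      Algebra.IsSeparable M F ∧
      (∀ (m : ℕ) (P : Sylow p (Equiv.Perm (Fin (p ^ m)))),
        ∃ (E : Type u) (_ : Field E) (_ : Algebra F E), FiniteDimensional F E ∧
          IsGalois F E ∧ Nonempty ((E ≃ₐ[F] E) ≃* P)) ∧
      ∀ (H : Type w) [Group H] [Finite H], IsPGroup p H →
        ∃ (F' E' : Type u) (_ : Field F') (_ : Field E') (_ : Algebra F F') (_ : Algebra F' E'),
          FiniteDimensional F F' ∧ Algebra.IsSeparable F F' ∧ FiniteDimensional F' E' ∧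
          IsGalois F' E' ∧ Nonempty ((E' ≃ₐ[F'] E') ≃* H) := by
  have : Fact p.Prime := ⟨hp⟩
  let Ω := SeparableClosure M
  have : Algebra.IsSeparable K Ω := Algebra.IsSeparable.trans K M Ω
  have hcl : IsSepClosure K Ω := ⟨inferInstance, inferInstance⟩
  have hgal : IsGalois K Ω := IsSepClosure.isGalois
  have hcl' : IsSepClosure M Ω := ⟨inferInstance, inferInstance⟩
  have hgal' : IsGalois M Ω := IsSepClosure.isGalois
  let j : E0 →ₐ[M] Ω := IsSepClosed.lift
  have hfr : Module.finrank M j.fieldRange = Module.finrank M E0 :=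
    (AlgEquiv.ofInjectiveField j).toLinearEquiv.finrank_eq.symm
  have hfd : FiniteDimensional M j.fieldRange :=
    (AlgEquiv.ofInjectiveField j).toLinearEquiv.finiteDimensional
  obtain ⟨F, hF, h⟩ := mn_core (K := K) (M := M) (Ω := Ω) hK hp hpK j.fieldRange (hfr ▸ hE0)
  refine ⟨F, inferInstance, inferInstance, hF, inferInstance, h, ?_⟩
  intro H _ _ hH
  obtain ⟨m, hm⟩ := hH.exists_card_eq
  obtain ⟨E, iE, aE, d1, d2, ⟨e⟩⟩ := h m default
  obtain ⟨c, hc⟩ := gq_embed hm (default : Sylow p (Equiv.Perm (Fin (p ^ m))))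
  obtain ⟨F', f1, f2, f3, -, g1, g2, g3, g4, g5⟩ := ex_sub e c hc
  exact ⟨F', E, f1, iE, f2, f3, g1, g2, g3, g4, g5⟩

end Pool.Agent.H43.SW
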