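import Pool.Agent.H43.SW.Df

/-!
Row Nr (MP_9924a2_SW, about 130 lines): the norm over the cosets.

PROOF.  `U` has finite index, so `G ⧸ U` is finite and `∑ᶠ` is a finite sum (`finsum_eq_sum_of_fintype`, with `Fintype.ofFinite`).
`nm_out`: `r x = x.out * u` with `u ∈ U` (`QuotientGroup.eq`, `Quotient.out_eq'`), `act (r x) a = act x.out (act u a) = act x.out a`.
`nm_mem`: for `g : G`, `act g (Nm a) = ∑ act (g * x.out) a`; `x ↦ g • x` is a permutation of `G ⧸ U` and `g * x.out` is a representative of `g • x`: `nm_out` with the section `y ↦ g * (g⁻¹ • y).out` after reindexing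
 (`finsum_comp_equiv`/`Equiv.sum_comp` with `MulAction.toPerm g`).
`nm_phi`: `map_sum`, `comm`.  `nm_iota`: all terms are `ι j` (`fix`): `Nat.card (G ⧸ U) = U.index`.
-/

set_option autoImplicit false

namespace Pool.Agent.H43.SW

universe u v

variable {p : ℕ} {G : Type u} [Group G] {A : Type v} [AddCommGroup A] (D : KD p G A)
  {U : Subgroup G} [U.FiniteIndex]

theorem nm_out {a : A} (ha : a ∈ D.Fx U) (r : G ⧸ U → G) (hr : ∀ x, (r x : G ⧸ U) = x) :
    D.Nm U a = ∑ᶠ x : G ⧸ U, D.act (r x) a := by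
  unfold KD.Nm
  refine finsum_congr fun x => ?_
  have h1 : ((x.out : G) : G ⧸ U) = (r x : G ⧸ U) := by
    rw [hr x]
    exact QuotientGroup.out_eq' x
  have h2 : x.out⁻¹ * r x ∈ U := QuotientGroup.eq.1 h1
  have h3 : r x = x.out * (x.out⁻¹ * r x) := by group
  rw [h3, map_mul]
  change D.act x.out a = D.act x.out (D.act (x.out⁻¹ * r x) a)
  rw [(D.mem_Fx).1 ha _ h2]

theorem nm_mem {a : A} (ha : a ∈ D.Fx U) : D.Nm U a ∈ D.Fx ⊤ := by
  classical
  have hfin : Fintype (G ⧸ U) := Fintype.ofFinite _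
  rw [D.mem_Fx]
  intro g _
  have h1 : D.act g (D.Nm U a) = ∑ x : G ⧸ U, D.act (g * x.out) a := by
    unfold KD.Nm
    rw [finsum_eq_sum_of_fintype, map_sum]
    refine Finset.sum_congr rfl fun x _ => ?_
    rw [map_mul]
    rfl
  have h2 : D.Nm U a = ∑ y : G ⧸ U, D.act (g * (g⁻¹ • y).out) a := by
    rw [nm_out D ha (fun y => g * (g⁻¹ • y).out) (fun y => ?_), finsum_eq_sum_of_fintype]
    have h3 : ((g * (g⁻¹ • y).out : G) : G ⧸ U) = g • (((g⁻¹ • y).out : G) : G ⧸ U) := rfl
    rw [h3, QuotientGroup.out_eq', smul_inv_smul]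
  rw [h1, h2]
  refine Fintype.sum_equiv (MulAction.toPerm g) _ _ fun x => ?_
  rw [MulAction.toPerm_apply, inv_smul_smul]

theorem nm_add (a b : A) : D.Nm U (a + b) = D.Nm U a + D.Nm U b := by
  classical
  have hfin : Fintype (G ⧸ U) := Fintype.ofFinite _
  unfold KD.Nm
  rw [finsum_eq_sum_of_fintype, finsum_eq_sum_of_fintype, finsum_eq_sum_of_fintype,
    ← Finset.sum_add_distrib]
  exact Finset.sum_congr rfl fun x _ => map_add _ _ _

theorem nm_phi (a : A) : D.Nm U (D.φ a) = D.φ (D.Nm U a) := by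
  classical
  have hfin : Fintype (G ⧸ U) := Fintype.ofFinite _
  unfold KD.Nm
  rw [finsum_eq_sum_of_fintype, finsum_eq_sum_of_fintype, map_sum]
  exact Finset.sum_congr rfl fun x _ => (D.comm _ _).symm

theorem nm_iota (j : ZMod p) : D.Nm U (D.ι j) = U.index • D.ι j := by
  classical
  have hfin : Fintype (G ⧸ U) := Fintype.ofFinite _
  unfold KD.Nm
  rw [finsum_eq_sum_of_fintype]
  simp only [D.fix]
  rw [Finset.sum_const, Finset.card_univ, Subgroup.index, Nat.card_eq_fintype_card]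

end Pool.Agent.H43.SW
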